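import Mathlib

set_option autoImplicit false

/-!
Definitions for time-delay systems `ẋ(t) = f(x_t, u(t))` with state space
`X = C([-T,0], ℝⁿ)` and inputs `u ∈ L^∞(ℝ₊, ℝᵐ)`.
-/

namespace Pool.Agent.W_MP_9da05b_an

open Set Filter Topology MeasureTheory

noncomputable section

/-- `ℝⁿ` with the Euclidean norm. -/
abbrev Eu (n : ℕ) : Type := EuclideanSpace ℝ (Fin n)

/-- The state space `X = C([-T,0], ℝⁿ)`, with the sup norm. -/
abbrev St (T : ℝ) (n : ℕ) : Type := C(Icc (-T) (0 : ℝ), Eu n)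

variable {T : ℝ} [hT : Fact (0 < T)] {n m : ℕ}

/-- The point `0` of `[-T,0]`; so `x (zeroPt T)` is the value `x(0)` of a state `x`. -/
def zeroPt (T : ℝ) [hT : Fact (0 < T)] : Icc (-T) (0 : ℝ) :=
  ⟨0, (neg_neg_of_pos hT.out).le, le_refl 0⟩

/-- The state `φ*(t,x,v)` used in the Driver derivative:
`φ*(t,x,v)(s) = x(s+t)` for `s ≤ -t` and `φ*(t,x,v)(s) = x(0) + (t+s) f(x,v)` for `s ≥ -t`
(`projIcc` is the projection of `ℝ` onto `[-T,0]`). -/
def driverShift (f : St T n → Eu m → Eu n) (x : St T n) (v : Eu m) (t : ℝ) : St T n where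
  toFun s := x (projIcc (-T) 0 (neg_neg_of_pos hT.out).le ((s : ℝ) + t))
    + max ((s : ℝ) + t) 0 • f x v
  continuous_toFun := by
    have h1 : Continuous fun s : Icc (-T) (0 : ℝ) => (s : ℝ) + t := by fun_prop
    exact (x.continuous.comp (continuous_projIcc.comp h1)).add
      ((h1.max continuous_const).smul continuous_const)

/-- The Driver derivative of `V` at `x` for the input value `v`. -/
def driverDeriv (f : St T n → Eu m → Eu n) (V : St T n → ℝ) (x : St T n) (v : Eu m) : EReal :=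
  limsup (fun t : ℝ => (((V (driverShift f x v t) - V x) / t : ℝ) : EReal)) (𝓝[>] 0)

/-- The upper right Dini derivative of `w` at `t`. -/
def upperRightDini (w : ℝ → ℝ) (t : ℝ) : EReal :=
  limsup (fun h : ℝ => (((w (t + h) - w t) / h : ℝ) : EReal)) (𝓝[>] 0)

/-- Comparison functions of class `𝒦`. -/
def ClassK (a : ℝ → ℝ) : Prop :=
  ContinuousOn a (Ici 0) ∧ StrictMonoOn a (Ici 0) ∧ a 0 = 0

/-- Comparison functions of class `𝒦_∞`. -/
def ClassKInf (a : ℝ → ℝ) : Prop :=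
  ClassK a ∧ Tendsto a atTop atTop

/-- Comparison functions of class `𝒦ℒ`. -/
def ClassKL (β : ℝ → ℝ → ℝ) : Prop :=
  ContinuousOn (fun p : ℝ × ℝ => β p.1 p.2) (Ici 0 ×ˢ Ici 0) ∧
  (∀ t : ℝ, 0 ≤ t → ClassK (fun r => β r t)) ∧
  (∀ r : ℝ, 0 ≤ r → AntitoneOn (β r) (Ici 0) ∧ Tendsto (β r) atTop (𝓝 0))

/-- `u` represents an element of `L^∞(ℝ₊, ℝᵐ)`. -/
def IsInput (u : ℝ → Eu m) : Prop :=
  MemLp u ⊤ (volume.restrict (Ici (0 : ℝ)))

/-- The norm `‖u‖_∞` of an input. -/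
def inputNorm (u : ℝ → Eu m) : ℝ :=
  (eLpNorm u ⊤ (volume.restrict (Ici (0 : ℝ)))).toReal

/-- The standing assumptions on the right-hand side `f`: it is continuous, Lipschitz in its first
argument on bounded sets (uniformly for the second argument in bounded sets), and `f(0,0) = 0`. -/
def Admissible (f : St T n → Eu m → Eu n) : Prop :=
  Continuous (fun p : St T n × Eu m => f p.1 p.2) ∧
  (∀ r : ℝ, ∃ L : ℝ, ∀ (x y : St T n) (v : Eu m), ‖x‖ ≤ r → ‖y‖ ≤ r → ‖v‖ ≤ r →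
    ‖f x v - f y v‖ ≤ L * ‖x - y‖) ∧
  f 0 0 = 0

/-- `y : [-T,b) → ℝⁿ` is a solution on `[0,b)` of `ẏ(t) = f(y_t, u(t))` with initial state `x`,
and `φ t = y_t ∈ X` is its state at time `t ∈ [0,b)`; the equation is written in integrated form
(equivalently: `y` is locally absolutely continuous on `[0,b)` and the equation holds a.e.). -/
structure IsSol (f : St T n → Eu m → Eu n) (x : St T n) (u : ℝ → Eu m) (b : ℝ)
    (y : ℝ → Eu n) (φ : ℝ → St T n) : Prop where
  init : φ 0 = x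
  seg : ∀ t ∈ Ico 0 b, ∀ s : Icc (-T) (0 : ℝ), φ t s = y (t + (s : ℝ))
  int : ∀ t ∈ Ico 0 b, IntervalIntegrable (fun r => f (φ r) (u r)) volume 0 t
  ode : ∀ t ∈ Ico 0 b, y t = y 0 + ∫ r in (0 : ℝ)..t, f (φ r) (u r)

/-- The regularity condition on `V`: along every solution, `w(t) = V(φ(t,x,u))` is locally
absolutely continuous and its upper right Dini derivative is the Driver derivative of `V` at
`φ(t,x,u)` for the input value `u(t)`, for almost every `t` (inputs are classes of functions), and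
moreover at every `t` at which the representative `u` is continuous from the right. -/
def Regularity (f : St T n → Eu m → Eu n) (V : St T n → ℝ) : Prop :=
  ∀ (x : St T n) (u : ℝ → Eu m), IsInput u → ∀ (b : ℝ) (y : ℝ → Eu n) (φ : ℝ → St T n),
    0 < b → IsSol f x u b y φ →
      (∀ c ∈ Ico 0 b, AbsolutelyContinuousOnInterval (fun t => V (φ t)) 0 c) ∧
      (∀ᵐ t ∂(volume.restrict (Ico 0 b)),
        upperRightDini (fun t => V (φ t)) t = driverDeriv f V (φ t) (u t)) ∧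
      (∀ t ∈ Ico 0 b, ContinuousWithinAt u (Ioi t) t →
        upperRightDini (fun t => V (φ t)) t = driverDeriv f V (φ t) (u t))

/-- Input-to-state stability: all solutions exist for all times `t ≥ 0` and
`|φ(t,x,u)(0)| ≤ β(‖x‖,t) + γ(‖u‖_∞)`. -/
def ISS (f : St T n → Eu m → Eu n) : Prop :=
  ∃ (β : ℝ → ℝ → ℝ) (γ : ℝ → ℝ), ClassKL β ∧ ClassKInf γ ∧
    ∀ (x : St T n) (u : ℝ → Eu m), IsInput u →
      (∃ (y : ℝ → Eu n) (φ : ℝ → St T n), ∀ b : ℝ, 0 < b → IsSol f x u b y φ) ∧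
      (∀ (b : ℝ) (y : ℝ → Eu n) (φ : ℝ → St T n), 0 < b → IsSol f x u b y φ →
        ∀ t ∈ Ico 0 b, ‖φ t (zeroPt T)‖ ≤ β ‖x‖ t + γ (inputNorm u))

end

end Pool.Agent.W_MP_9da05b_an
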