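import Mathlib
import Pool.Agent.W_MP_9da05b_an.Defs

set_option autoImplicit false

namespace Pool.Agent.W_MP_9da05b_an

open Set Filter Topology MeasureTheory

noncomputable section

/-- the direction dependent gain -/
def lam (z : ℝ) : ℝ := max 1 (min (3/2) (3/2 - z/2))

lemma one_le_lam (z : ℝ) : 1 ≤ lam z := le_max_left _ _

lemma lam_le (z : ℝ) : lam z ≤ 3/2 := max_le (by norm_num) (min_le_left _ _)

lemma lam_lip (z w : ℝ) : |lam z - lam w| ≤ 1/2 * |z - w| := by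
  unfold lam
  refine (abs_max_sub_max_le_max _ _ _ _).trans (max_le (by simp) ?_)
  refine (abs_min_sub_min_le_max _ _ _ _).trans (max_le (by simp) ?_)
  rw [show (3/2 - z/2 : ℝ) - (3/2 - w/2) = -(1/2) * (z - w) by ring, abs_mul]
  rw [abs_neg, abs_of_pos (by norm_num : (0:ℝ) < 1/2)]

lemma lam_of_nonpos {z : ℝ} (h : z ≤ 0) : lam z = 3/2 := by
  unfold lam
  rw [min_eq_left (by linarith), max_eq_right (by norm_num)]

lemma lam_of_one_le {z : ℝ} (h : 1 ≤ z) : lam z = 1 := by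
  unfold lam
  rw [max_eq_left]
  exact (min_le_right _ _).trans (by linarith)

lemma lam_of_mem {z : ℝ} (h0 : 0 ≤ z) (h1 : z ≤ 1) : lam z = 3/2 - z/2 := by
  unfold lam
  rw [min_eq_right (by linarith), max_eq_right (by linarith)]

lemma lam_key (z d : ℝ) (h0 : 0 ≤ d) (h1 : d ≤ 1) :
    (1 - d) * lam ((1 - d) * z) ≤ (1 - d/2) * lam z := by
  rcases le_or_gt z 0 with hz | hz
  · rw [lam_of_nonpos hz, lam_of_nonpos (mul_nonpos_of_nonneg_of_nonpos (by linarith) hz)]
    linarith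
  rcases le_or_gt z 1 with hz1 | hz1
  · have h2 : 0 ≤ (1 - d) * z := mul_nonneg (by linarith) hz.le
    have h3 : (1 - d) * z ≤ 1 := by nlinarith
    rw [lam_of_mem hz.le hz1, lam_of_mem h2 h3]
    nlinarith [mul_nonneg h0 (by linarith : 0 ≤ 1 - d), mul_nonneg h0 (mul_nonneg h0 hz.le),
      mul_nonneg h0 (by linarith : 0 ≤ 1 - z)]
  · rcases le_or_gt 1 ((1 - d) * z) with h4 | h4
    · rw [lam_of_one_le hz1.le, lam_of_one_le h4]
      linarith
    · have h2 : 0 ≤ (1 - d) * z := mul_nonneg (by linarith) hz.le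
      rw [lam_of_one_le hz1.le, lam_of_mem h2 h4.le]
      have h5 : 1 - d ≤ (1 - d) * z := by nlinarith
      set q := (1 - d) * z with hq
      nlinarith [mul_nonneg h0 (by linarith : 0 ≤ 1 - q)]

/-- dead zone -/
def dz (r : ℝ) : ℝ := r - max (-2) (min 2 r)

lemma dz_of_abs_le {r : ℝ} (h : |r| ≤ 2) : dz r = 0 := by
  unfold dz
  rw [abs_le] at h
  rw [min_eq_right h.2, max_eq_right h.1, sub_self]

lemma dz_abs_le (r : ℝ) : |dz r| ≤ |r| := by
  unfold dz
  rcases le_total r (-2) with h | h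
  · rw [min_eq_right (by linarith), max_eq_left h, abs_of_nonpos (by linarith),
      abs_of_nonpos (by linarith)]
    linarith
  rcases le_total r 2 with h2 | h2
  · rw [min_eq_right h2, max_eq_right h, sub_self, abs_zero]
    exact abs_nonneg _
  · rw [min_eq_left h2, max_eq_right (by norm_num), abs_of_nonneg (by linarith),
      abs_of_nonneg (by linarith)]
    linarith

lemma dz_add_two {q : ℝ} (h : 0 < q) : dz (q + 2) = q := by
  unfold dz
  rw [min_eq_left (by linarith), max_eq_right (by norm_num)]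
  ring

lemma dz_sub_two {q : ℝ} (h : q < 0) : dz (q - 2) = q := by
  unfold dz
  rw [min_eq_right (by linarith), max_eq_left (by linarith)]
  ring

lemma dz_zero : dz 0 = 0 := dz_of_abs_le (by simp)

lemma continuous_dz : Continuous dz := by unfold dz; fun_prop

lemma continuous_lam : Continuous lam := by unfold lam; fun_prop

variable {T : ℝ} [hT : Fact (0 < T)] {n m : ℕ}

/-- pointwise weight -/
def gf (e : Eu n) (l : ℝ) (y : Eu n) : ℝ := max ‖y‖ (l * inner ℝ e y)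

lemma inner_le (e : Eu n) (he : ‖e‖ = 1) (y : Eu n) : |(inner ℝ e y : ℝ)| ≤ ‖y‖ := by
  have := abs_real_inner_le_norm e y
  rwa [he, one_mul] at this

lemma norm_le_gf (e : Eu n) (l : ℝ) (y : Eu n) : ‖y‖ ≤ gf e l y := le_max_left _ _

lemma gf_nonneg (e : Eu n) (l : ℝ) (y : Eu n) : 0 ≤ gf e l y := (norm_nonneg y).trans (norm_le_gf e l y)

lemma gf_le (e : Eu n) (he : ‖e‖ = 1) {l : ℝ} (h0 : 1 ≤ l) (h1 : l ≤ 3/2) (y : Eu n) :
    gf e l y ≤ 3/2 * ‖y‖ := by
  unfold gf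
  refine max_le (by nlinarith [norm_nonneg y]) ?_
  have h2 := (abs_le.1 (inner_le e he y)).2
  nlinarith [norm_nonneg y]

lemma gf_lip (e : Eu n) (he : ‖e‖ = 1) {l l' : ℝ} (h0 : 1 ≤ l) (h1 : l ≤ 3/2) (y y' : Eu n) :
    |gf e l y - gf e l' y'| ≤ 3/2 * ‖y - y'‖ + |l - l'| * ‖y'‖ := by
  unfold gf
  refine (abs_max_sub_max_le_max _ _ _ _).trans (max_le ?_ ?_)
  · have := abs_norm_sub_norm_le y y'
    have h2 : 0 ≤ |l - l'| * ‖y'‖ := by positivity
    nlinarith [norm_nonneg (y - y')]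
  · have h3 : l * inner ℝ e y - l' * inner ℝ e y'
        = l * inner ℝ e (y - y') + (l - l') * inner ℝ e y' := by
      rw [inner_sub_right]; ring
    rw [h3]
    refine (abs_add_le _ _).trans (add_le_add ?_ ?_)
    · rw [abs_mul, abs_of_nonneg (by linarith)]
      exact mul_le_mul h1 (inner_le e he _) (abs_nonneg _) (by norm_num)
    · rw [abs_mul]
      exact mul_le_mul_of_nonneg_left (inner_le e he _) (abs_nonneg _)

/-- the weight on `[-T,0]` -/
def kap (T : ℝ) (s : ℝ) : ℝ := 1 + s / T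

lemma kap_nonneg (s : Icc (-T) (0 : ℝ)) : 0 ≤ kap T s := by
  unfold kap
  have h := s.2.1
  have hT0 := hT.out
  have : -1 ≤ (s : ℝ) / T := by rw [le_div_iff₀ hT0]; linarith
  linarith

lemma kap_le_one (s : Icc (-T) (0 : ℝ)) : kap T s ≤ 1 := by
  unfold kap
  have h := s.2.2
  have hT0 := hT.out
  have : (s : ℝ) / T ≤ 0 := div_nonpos_of_nonpos_of_nonneg h hT0.le
  linarith

lemma kap_zero : kap T ((zeroPt T : Icc (-T) (0 : ℝ)) : ℝ) = 1 := by
  simp [kap, zeroPt]

/-- the function on `[-T,0]` whose sup norm is the functional -/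
def Phi (e : Eu n) (x : St T n) : C(Icc (-T) (0 : ℝ), ℝ) where
  toFun s := kap T s * gf e (lam (inner ℝ e (x (zeroPt T)))) (x s)
  continuous_toFun := by
    unfold kap gf
    fun_prop

lemma Phi_apply (e : Eu n) (x : St T n) (s : Icc (-T) (0 : ℝ)) :
    Phi e x s = kap T s * gf e (lam (inner ℝ e (x (zeroPt T)))) (x s) := rfl

lemma Phi_nonneg (e : Eu n) (x : St T n) (s : Icc (-T) (0 : ℝ)) : 0 ≤ Phi e x s :=
  mul_nonneg (kap_nonneg s) (gf_nonneg _ _ _)

/-- the functional -/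
def VV (e : Eu n) (x : St T n) : ℝ := ‖Phi e x‖

lemma VV_nonneg (e : Eu n) (x : St T n) : 0 ≤ VV e x := norm_nonneg _

lemma Phi_le_VV (e : Eu n) (x : St T n) (s : Icc (-T) (0 : ℝ)) : Phi e x s ≤ VV e x :=
  (le_abs_self _).trans ((Phi e x).norm_coe_le_norm s)

lemma VV_le (e : Eu n) (x : St T n) {C : ℝ} (hC : 0 ≤ C)
    (h : ∀ s : Icc (-T) (0 : ℝ), Phi e x s ≤ C) : VV e x ≤ C := by
  unfold VV
  rw [ContinuousMap.norm_le _ hC]
  intro s
  rw [Real.norm_eq_abs, abs_of_nonneg (Phi_nonneg e x s)]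
  exact h s

lemma norm_zero_le_VV (e : Eu n) (x : St T n) : ‖x (zeroPt T)‖ ≤ VV e x := by
  refine le_trans ?_ (Phi_le_VV e x (zeroPt T))
  rw [Phi_apply, kap_zero, one_mul]
  exact norm_le_gf _ _ _

lemma VV_le_norm (e : Eu n) (he : ‖e‖ = 1) (x : St T n) : VV e x ≤ 3/2 * ‖x‖ := by
  apply VV_le e x (by positivity)
  intro s
  rw [Phi_apply]
  have h1 := gf_le e he (one_le_lam (inner ℝ e (x (zeroPt T)))) (lam_le _) (x s)
  have h2 := x.norm_coe_le_norm s
  have h3 := kap_nonneg s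
  have h4 := kap_le_one s
  have h5 := gf_nonneg e (lam (inner ℝ e (x (zeroPt T)))) (x s)
  nlinarith

lemma VV_lip (e : Eu n) (he : ‖e‖ = 1) (x y : St T n) :
    |VV e x - VV e y| ≤ (3/2 + 1/2 * ‖y‖) * ‖x - y‖ := by
  unfold VV
  refine (abs_norm_sub_norm_le _ _).trans ?_
  rw [ContinuousMap.norm_le _ (by positivity)]
  intro s
  rw [ContinuousMap.sub_apply, Phi_apply, Phi_apply, ← mul_sub, norm_mul, Real.norm_eq_abs,
    Real.norm_eq_abs, abs_of_nonneg (kap_nonneg s)]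
  have h1 := gf_lip e he (l' := lam (inner ℝ e (y (zeroPt T))))
    (one_le_lam (inner ℝ e (x (zeroPt T)))) (lam_le _) (x s) (y s)
  have h2 : ‖x s - y s‖ ≤ ‖x - y‖ := by
    have := (x - y).norm_coe_le_norm s
    simpa using this
  have h20 : ‖x (zeroPt T) - y (zeroPt T)‖ ≤ ‖x - y‖ := by
    have := (x - y).norm_coe_le_norm (zeroPt T)
    simpa using this
  have h3 := lam_lip (inner ℝ e (x (zeroPt T))) (inner ℝ e (y (zeroPt T)))
  have h4 : |(inner ℝ e (x (zeroPt T)) : ℝ) - inner ℝ e (y (zeroPt T))| ≤ ‖x - y‖ := by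
    rw [← inner_sub_right]
    exact (inner_le e he _).trans h20
  have h5 := y.norm_coe_le_norm s
  have h6 := kap_nonneg s
  have h7 := kap_le_one s
  have h8 := abs_nonneg (gf e (lam (inner ℝ e (x (zeroPt T)))) (x s)
    - gf e (lam (inner ℝ e (y (zeroPt T)))) (y s))
  have h9 : |lam (inner ℝ e (x (zeroPt T))) - lam (inner ℝ e (y (zeroPt T)))| * ‖y s‖
      ≤ (1/2 * ‖x - y‖) * ‖y‖ := by
    apply mul_le_mul (h3.trans (by linarith)) h5 (norm_nonneg _) (by positivity)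
  have h10 := norm_nonneg (x - y)
  calc _ ≤ 1 * |gf e (lam (inner ℝ e (x (zeroPt T)))) (x s)
      - gf e (lam (inner ℝ e (y (zeroPt T)))) (y s)| := mul_le_mul_of_nonneg_right h7 h8
    _ ≤ _ := by nlinarith

lemma continuous_VV (e : Eu n) (he : ‖e‖ = 1) : Continuous (VV e : St T n → ℝ) := by
  rw [continuous_iff_continuousAt]
  intro y
  unfold ContinuousAt
  rw [tendsto_iff_dist_tendsto_zero]
  have h : Tendsto (fun x : St T n => (3/2 + 1/2 * ‖y‖) * ‖x - y‖) (𝓝 y) (𝓝 0) := by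
    have : Tendsto (fun x : St T n => (3/2 + 1/2 * ‖y‖) * ‖x - y‖) (𝓝 y)
        (𝓝 ((3/2 + 1/2 * ‖y‖) * ‖y - y‖)) := by
      apply Continuous.tendsto
      fun_prop
    simpa using this
  exact squeeze_zero (fun _ => dist_nonneg) (fun x => by rw [Real.dist_eq]; exact VV_lip e he x y) h

/-- cut-off near the axis spanned by `e` -/
def rho (e : Eu n) (y : Eu n) : ℝ := max 0 (1 + |(inner ℝ e y : ℝ)| - ‖y‖)

lemma rho_nonneg (e y : Eu n) : 0 ≤ rho e y := le_max_left _ _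

lemma rho_le_one (e : Eu n) (he : ‖e‖ = 1) (y : Eu n) : rho e y ≤ 1 := by
  unfold rho
  have := inner_le e he y
  exact max_le (by norm_num) (by linarith)

lemma rho_lip (e : Eu n) (he : ‖e‖ = 1) (y z : Eu n) : |rho e y - rho e z| ≤ 2 * ‖y - z‖ := by
  unfold rho
  refine (abs_max_sub_max_le_max _ _ _ _).trans (max_le (by simp) ?_)
  have h1 := abs_norm_sub_norm_le y z
  have h2 := abs_abs_sub_abs_le_abs_sub (inner ℝ e y : ℝ) (inner ℝ e z)
  rw [← inner_sub_right] at h2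
  have h3 := inner_le e he (y - z)
  rw [show (1 + |(inner ℝ e y : ℝ)| - ‖y‖) - (1 + |(inner ℝ e z : ℝ)| - ‖z‖)
    = (|(inner ℝ e y : ℝ)| - |(inner ℝ e z : ℝ)|) - (‖y‖ - ‖z‖) by ring]
  refine (abs_sub _ _).trans ?_
  linarith

lemma continuous_rho (e : Eu n) : Continuous (rho e) := by unfold rho; fun_prop

/-- scalar input gain -/
def gain (e : Eu n) (e' : Eu m) (x : St T n) (v : Eu m) : ℝ :=
  dz (inner ℝ e' v) * ((VV e x - ‖x (zeroPt T)‖) * rho e (x (zeroPt T)))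

/-- the right-hand side -/
def ff (e : Eu n) (e' : Eu m) (x : St T n) (v : Eu m) : Eu n :=
  -(1 / T) • x (zeroPt T) + gain e e' x v • e

end

end Pool.Agent.W_MP_9da05b_an
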