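import Mathlib
import Pool.Agent.W_MP_9da05b_an.Basic

set_option autoImplicit false

namespace Pool.Agent.W_MP_9da05b_an

open Set Filter Topology MeasureTheory

noncomputable section

variable {T : ℝ} [hT : Fact (0 < T)] {n m : ℕ}

lemma continuous_ff (e : Eu n) (he : ‖e‖ = 1) (e' : Eu m) :
    Continuous (fun p : St T n × Eu m => ff e e' p.1 p.2) := by
  unfold ff gain
  have h1 : Continuous (fun p : St T n × Eu m => p.1 (zeroPt T)) :=
    (ContinuousEvalConst.continuous_eval_const (zeroPt T)).comp continuous_fst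
  have h2 : Continuous (fun p : St T n × Eu m => VV e p.1) := (continuous_VV e he).comp continuous_fst
  have h3 : Continuous (fun p : St T n × Eu m => rho e (p.1 (zeroPt T))) := (continuous_rho e).comp h1
  have h4 : Continuous (fun p : St T n × Eu m => dz (inner ℝ e' p.2)) :=
    continuous_dz.comp (by fun_prop)
  have h5 : Continuous (fun p : St T n × Eu m => -(1 / T) • p.1 (zeroPt T)) :=
    (continuous_const_smul (-(1 / T))).comp h1
  have h6 : Continuous (fun p : St T n × Eu m => VV e p.1 - ‖p.1 (zeroPt T)‖) := h2.sub h1.norm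
  have h7 : Continuous (fun p : St T n × Eu m =>
    dz (inner ℝ e' p.2) * ((VV e p.1 - ‖p.1 (zeroPt T)‖) * rho e (p.1 (zeroPt T)))) :=
    h4.mul (h6.mul h3)
  exact h5.fun_add (h7.fun_smul continuous_const)

lemma norm_zero_le (x : St T n) : ‖x (zeroPt T)‖ ≤ ‖x‖ := x.norm_coe_le_norm _

lemma norm_zero_sub_le (x y : St T n) : ‖x (zeroPt T) - y (zeroPt T)‖ ≤ ‖x - y‖ := by
  have := (x - y).norm_coe_le_norm (zeroPt T)
  simpa using this

lemma gain_abs_le (e : Eu n) (he : ‖e‖ = 1) (e' : Eu m) (he' : ‖e'‖ = 1) (x : St T n) (v : Eu m) :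
    |gain e e' x v| ≤ ‖v‖ * (3/2 * ‖x‖) := by
  unfold gain
  have h1 : |dz (inner ℝ e' v)| ≤ ‖v‖ := (dz_abs_le _).trans (inner_le e' he' v)
  have h2 := norm_zero_le_VV e x
  have h3 := VV_le_norm e he x
  have h4 := rho_nonneg e (x (zeroPt T))
  have h5 := rho_le_one e he (x (zeroPt T))
  have h6 := norm_nonneg (x (zeroPt T))
  rw [abs_mul]
  apply mul_le_mul h1 _ (abs_nonneg _) (norm_nonneg _)
  rw [abs_of_nonneg (mul_nonneg (by linarith) h4)]
  calc (VV e x - ‖x (zeroPt T)‖) * rho e (x (zeroPt T)) ≤ (VV e x - ‖x (zeroPt T)‖) * 1 :=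
        mul_le_mul_of_nonneg_left h5 (by linarith)
    _ ≤ _ := by linarith

lemma norm_ff_le (e : Eu n) (he : ‖e‖ = 1) (e' : Eu m) (he' : ‖e'‖ = 1) (x : St T n) (v : Eu m) :
    ‖ff e e' x v‖ ≤ (1 / T + 3/2 * ‖v‖) * ‖x‖ := by
  unfold ff
  have hT0 := hT.out
  refine (norm_add_le _ _).trans ?_
  rw [norm_smul, norm_smul, he, mul_one, Real.norm_eq_abs, Real.norm_eq_abs, abs_neg,
    abs_of_pos (by positivity : 0 < 1 / T)]
  have h1 := gain_abs_le e he e' he' x v
  have h2 := norm_zero_le x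
  have h3 : 0 < 1 / T := by positivity
  nlinarith

lemma ff_lip (e : Eu n) (he : ‖e‖ = 1) (e' : Eu m) (he' : ‖e'‖ = 1) (r : ℝ) :
    ∃ L : ℝ, ∀ (x y : St T n) (v : Eu m), ‖x‖ ≤ r → ‖y‖ ≤ r → ‖v‖ ≤ r →
    ‖ff e e' x v - ff e e' y v‖ ≤ L * ‖x - y‖ := by
  have hT0 := hT.out
  refine ⟨1 / T + r * ((3/2 + 1/2 * r) + 1 + 2 * (3/2 * r)), ?_⟩
  intro x y v hx hy hv
  have hr : 0 ≤ r := (norm_nonneg _).trans hx
  have hd := norm_zero_sub_le x y
  have hn := norm_nonneg (x - y)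
  -- inner function
  have hA : |(VV e x - ‖x (zeroPt T)‖) * rho e (x (zeroPt T))
      - (VV e y - ‖y (zeroPt T)‖) * rho e (y (zeroPt T))|
      ≤ ((3/2 + 1/2 * r) + 1 + 2 * (3/2 * r)) * ‖x - y‖ := by
    have h1 := VV_lip e he x y
    have h2 := abs_norm_sub_norm_le (x (zeroPt T)) (y (zeroPt T))
    have h3 := rho_lip e he (x (zeroPt T)) (y (zeroPt T))
    have h4 := rho_nonneg e (x (zeroPt T))
    have h5 := rho_le_one e he (x (zeroPt T))
    have h6 := norm_zero_le_VV e y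
    have h7 := VV_le_norm e he y
    have h8 := norm_nonneg (y (zeroPt T))
    rw [show (VV e x - ‖x (zeroPt T)‖) * rho e (x (zeroPt T))
      - (VV e y - ‖y (zeroPt T)‖) * rho e (y (zeroPt T))
      = ((VV e x - VV e y) - (‖x (zeroPt T)‖ - ‖y (zeroPt T)‖)) * rho e (x (zeroPt T))
        + (VV e y - ‖y (zeroPt T)‖) * (rho e (x (zeroPt T)) - rho e (y (zeroPt T))) by ring]
    refine (abs_add_le _ _).trans ?_
    rw [abs_mul, abs_mul]
    have h9 : |(VV e x - VV e y) - (‖x (zeroPt T)‖ - ‖y (zeroPt T)‖)|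
        ≤ (3/2 + 1/2 * r) * ‖x - y‖ + ‖x - y‖ := by
      refine (abs_sub _ _).trans ?_
      have : (3/2 + 1/2 * ‖y‖) * ‖x - y‖ ≤ (3/2 + 1/2 * r) * ‖x - y‖ :=
        mul_le_mul_of_nonneg_right (by linarith) hn
      linarith
    have h10 : |rho e (x (zeroPt T))| ≤ 1 := by rw [abs_of_nonneg h4]; exact h5
    have h11 : |VV e y - ‖y (zeroPt T)‖| ≤ 3/2 * r := by
      rw [abs_of_nonneg (by linarith)]; nlinarith
    have h12 : |rho e (x (zeroPt T)) - rho e (y (zeroPt T))| ≤ 2 * ‖x - y‖ := by linarith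
    have h13 := mul_le_mul h9 h10 (abs_nonneg _) (by positivity)
    have h14 := mul_le_mul h11 h12 (abs_nonneg _) (by positivity)
    linarith
  have hB : |dz (inner ℝ e' v)| ≤ r := ((dz_abs_le _).trans (inner_le e' he' v)).trans hv
  have hG : |gain e e' x v - gain e e' y v|
      ≤ r * (((3/2 + 1/2 * r) + 1 + 2 * (3/2 * r)) * ‖x - y‖) := by
    unfold gain
    rw [← mul_sub, abs_mul]
    exact mul_le_mul hB hA (abs_nonneg _) hr
  have hE : ff e e' x v - ff e e' y v
      = -(1 / T) • (x (zeroPt T) - y (zeroPt T)) + (gain e e' x v - gain e e' y v) • e := by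
    unfold ff
    rw [smul_sub, sub_smul]
    abel
  rw [hE]
  refine (norm_add_le _ _).trans ?_
  rw [norm_smul, norm_smul, he, mul_one, Real.norm_eq_abs, Real.norm_eq_abs, abs_neg,
    abs_of_pos (by positivity : 0 < 1 / T)]
  have h3 : 0 < 1 / T := by positivity
  nlinarith

lemma ff_zero (e : Eu n) (e' : Eu m) : ff e e' (0 : St T n) (0 : Eu m) = 0 := by
  unfold ff gain
  simp [dz_zero]

theorem admissible_ff (e : Eu n) (he : ‖e‖ = 1) (e' : Eu m) (he' : ‖e'‖ = 1) :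
    Admissible (ff e e' : St T n → Eu m → Eu n) :=
  ⟨continuous_ff e he e', ff_lip e he e' he', ff_zero e e'⟩

end

end Pool.Agent.W_MP_9da05b_an
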