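import Mathlib
import Pool.Agent.W_MP_9da05b_an.Basic

set_option autoImplicit false

namespace Pool.Agent.W_MP_9da05b_an

open Set Filter Topology MeasureTheory

noncomputable section

variable {T : ℝ} [hT : Fact (0 < T)] {n m : ℕ}

lemma driverShift_of_le (f : St T n → Eu m → Eu n) (x : St T n) (v : Eu m) {t : ℝ}
    (s : Icc (-T) (0 : ℝ)) (h0 : (s : ℝ) + t ≤ 0) (h1 : -T ≤ (s : ℝ) + t) :
    driverShift f x v t s = x ⟨(s : ℝ) + t, h1, h0⟩ := by
  unfold driverShift
  simp only [ContinuousMap.coe_mk]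
  rw [max_eq_right h0, zero_smul, add_zero, projIcc_of_mem _ ⟨h1, h0⟩]

lemma driverShift_of_ge (f : St T n → Eu m → Eu n) (x : St T n) (v : Eu m) {t : ℝ}
    (s : Icc (-T) (0 : ℝ)) (h0 : 0 ≤ (s : ℝ) + t) :
    driverShift f x v t s = x (zeroPt T) + ((s : ℝ) + t) • f x v := by
  unfold driverShift
  simp only [ContinuousMap.coe_mk]
  rw [max_eq_left h0, projIcc_of_right_le _ h0]
  rfl

lemma driverShift_zero (f : St T n → Eu m → Eu n) (x : St T n) (v : Eu m) {t : ℝ} (ht : 0 ≤ t) :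
    driverShift f x v t (zeroPt T) = x (zeroPt T) + t • f x v := by
  rw [driverShift_of_ge f x v (zeroPt T) (by simpa [zeroPt] using ht)]
  simp [zeroPt]

lemma gf_smul (e : Eu n) (l : ℝ) (y : Eu n) {c : ℝ} (hc : 0 ≤ c) :
    gf e l (c • y) = c * gf e l y := by
  unfold gf
  rw [norm_smul, Real.norm_eq_abs, abs_of_nonneg hc, inner_smul_right,
    mul_max_of_nonneg _ _ hc]
  congr 1
  ring

lemma gf_scale (e : Eu n) {d lt l0 : ℝ} (hd0 : 0 ≤ d) (hd1 : d ≤ 1) (hlt : 0 ≤ lt)
    (hl : (1 - d) * lt ≤ (1 - d/2) * l0) (y : Eu n) :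
    (1 - d) * gf e lt y ≤ (1 - d/2) * gf e l0 y := by
  have h1 : 0 ≤ 1 - d := by linarith
  have h2 : 0 ≤ 1 - d/2 := by linarith
  unfold gf
  rw [mul_max_of_nonneg _ _ h1, mul_max_of_nonneg _ _ h2]
  apply max_le
  · refine le_trans ?_ (le_max_left _ _)
    exact mul_le_mul_of_nonneg_right (by linarith) (norm_nonneg _)
  · rcases le_or_gt 0 (inner ℝ e y : ℝ) with h | h
    · refine le_trans ?_ (le_max_right _ _)
      rw [← mul_assoc, ← mul_assoc]
      exact mul_le_mul_of_nonneg_right hl h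
    · refine le_trans ?_ (le_max_left _ _)
      have h3 : 0 ≤ (1 - d/2) * ‖y‖ := mul_nonneg h2 (norm_nonneg _)
      have : (1 - d) * (lt * inner ℝ e y) ≤ 0 :=
        mul_nonpos_of_nonneg_of_nonpos h1 (mul_nonpos_of_nonneg_of_nonpos hlt h.le)
      linarith

/-- the part of the shifted state that comes from the old history -/
lemma old_part (f : St T n → Eu m → Eu n) (e : Eu n) (x : St T n) (v : Eu m) {t : ℝ}
    (ht0 : 0 ≤ t) (htT : t ≤ T)
    (hl : (1 - t/T) * lam (inner ℝ e (driverShift f x v t (zeroPt T)))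
      ≤ (1 - t/T/2) * lam (inner ℝ e (x (zeroPt T))))
    (s : Icc (-T) (0 : ℝ)) (hs : (s : ℝ) + t ≤ 0) :
    Phi e (driverShift f x v t) s ≤ (1 - t/T/2) * VV e x := by
  have hT0 := hT.out
  have h1 : -T ≤ (s : ℝ) + t := by have := s.2.1; linarith
  have hd0 : 0 ≤ t / T := by positivity
  have hd1 : t / T ≤ 1 := by rw [div_le_one hT0]; exact htT
  set s' : Icc (-T) (0 : ℝ) := ⟨(s : ℝ) + t, h1, hs⟩ with hs'
  rw [Phi_apply, driverShift_of_le f x v s hs h1]
  have hk : kap T s ≤ (1 - t/T) * kap T s' := by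
    have h2 : kap T s = kap T s' - t / T := by
      simp only [kap, hs']; ring
    have h3 := kap_le_one s'
    rw [h2]; nlinarith
  have h4 := gf_nonneg e (lam (inner ℝ e (driverShift f x v t (zeroPt T)))) (x s')
  have h5 := gf_scale e hd0 hd1 (by have := one_le_lam (inner ℝ e (driverShift f x v t (zeroPt T))); linarith) hl (x s')
  have h6 := Phi_le_VV e x s'
  rw [Phi_apply] at h6
  have h7 := kap_nonneg s'
  calc kap T s * gf e (lam (inner ℝ e (driverShift f x v t (zeroPt T)))) (x s')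
      ≤ ((1 - t/T) * kap T s') * gf e (lam (inner ℝ e (driverShift f x v t (zeroPt T)))) (x s') :=
        mul_le_mul_of_nonneg_right hk h4
    _ = kap T s' * ((1 - t/T) * gf e (lam (inner ℝ e (driverShift f x v t (zeroPt T)))) (x s')) := by
        ring
    _ ≤ kap T s' * ((1 - t/T/2) * gf e (lam (inner ℝ e (x (zeroPt T)))) (x s')) :=
        mul_le_mul_of_nonneg_left h5 h7
    _ = (1 - t/T/2) * (kap T s' * gf e (lam (inner ℝ e (x (zeroPt T)))) (x s')) := by ring
    _ ≤ (1 - t/T/2) * VV e x := mul_le_mul_of_nonneg_left h6 (by linarith)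

/-- decay estimate when the input has no effect -/
lemma decay_one (e : Eu n) (he : ‖e‖ = 1) (f : St T n → Eu m → Eu n) (x : St T n) (v : Eu m)
    (hf : f x v = -(1 / T) • x (zeroPt T)) {t : ℝ} (ht0 : 0 ≤ t) (htT : t ≤ T) :
    VV e (driverShift f x v t) ≤ (1 - t/T/2) * VV e x + (‖x (zeroPt T)‖ / T^2) * t^2 := by
  have hT0 := hT.out
  have hd0 : 0 ≤ t / T := by positivity
  have hd1 : t / T ≤ 1 := by rw [div_le_one hT0]; exact htT
  have hx0 := norm_nonneg (x (zeroPt T))
  have hV := VV_nonneg e x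
  have hshift : driverShift f x v t (zeroPt T) = (1 - t/T) • x (zeroPt T) := by
    rw [driverShift_zero f x v ht0, hf, smul_smul, sub_smul, one_smul, sub_eq_add_neg, ← neg_smul]
    congr 2; ring
  have hl : (1 - t/T) * lam (inner ℝ e (driverShift f x v t (zeroPt T)))
      ≤ (1 - t/T/2) * lam (inner ℝ e (x (zeroPt T))) := by
    rw [hshift, inner_smul_right]
    exact lam_key _ _ hd0 hd1
  apply VV_le
  · have : 0 ≤ (1 - t/T/2) * VV e x := mul_nonneg (by linarith) hV
    positivity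
  intro s
  rcases le_or_gt ((s : ℝ) + t) 0 with hs | hs
  · have := old_part f e x v ht0 htT hl s hs
    have h2 : 0 ≤ (‖x (zeroPt T)‖ / T^2) * t^2 := by positivity
    linarith
  · rw [Phi_apply, driverShift_of_ge f x v s hs.le, hf]
    set lt := lam (inner ℝ e (driverShift f x v t (zeroPt T))) with hlt
    set l0 := lam (inner ℝ e (x (zeroPt T))) with hl0
    have hss := s.2.2
    set r := ((s : ℝ) + t) / T with hr
    have hr0 : 0 ≤ r := by positivity
    have hrd : r ≤ t / T := by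
      rw [hr]; exact div_le_div_of_nonneg_right (by linarith) hT0.le
    have h1 : x (zeroPt T) + ((s : ℝ) + t) • -(1 / T) • x (zeroPt T) = (1 - r) • x (zeroPt T) := by
      rw [smul_smul, sub_smul, one_smul, sub_eq_add_neg, ← neg_smul, hr]
      congr 2; ring
    have h2 : kap T s = 1 - t/T + r := by
      unfold kap; rw [hr]; ring
    rw [h1, h2, gf_smul e lt _ (by linarith : 0 ≤ 1 - r)]
    have h3 : (1 - t/T + r) * (1 - r) ≤ (1 - t/T) + (t/T)^2/4 := by
      nlinarith [sq_nonneg (t/T - 2 * r)]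
    have h4 := gf_nonneg e lt (x (zeroPt T))
    have h5 := gf_scale e hd0 hd1 (by have := one_le_lam (inner ℝ e (driverShift f x v t (zeroPt T))); linarith) hl (x (zeroPt T))
    have h6 : gf e l0 (x (zeroPt T)) ≤ VV e x := by
      have := Phi_le_VV e x (zeroPt T)
      rwa [Phi_apply, kap_zero, one_mul] at this
    have h7 : gf e lt (x (zeroPt T)) ≤ 3/2 * ‖x (zeroPt T)‖ :=
      gf_le e he (one_le_lam _) (lam_le _) _
    have h8 : (1 - t/T/2) * gf e l0 (x (zeroPt T)) ≤ (1 - t/T/2) * VV e x :=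
      mul_le_mul_of_nonneg_left h6 (by linarith)
    have h9 : (t/T)^2 = t^2 / T^2 := by rw [div_pow]
    calc (1 - t/T + r) * ((1 - r) * gf e lt (x (zeroPt T)))
        = ((1 - t/T + r) * (1 - r)) * gf e lt (x (zeroPt T)) := by ring
      _ ≤ ((1 - t/T) + (t/T)^2/4) * gf e lt (x (zeroPt T)) := mul_le_mul_of_nonneg_right h3 h4
      _ = (1 - t/T) * gf e lt (x (zeroPt T)) + (t/T)^2/4 * gf e lt (x (zeroPt T)) := by ring
      _ ≤ (1 - t/T/2) * VV e x + (t/T)^2/4 * (3/2 * ‖x (zeroPt T)‖) := by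
          apply add_le_add (h5.trans h8)
          exact mul_le_mul_of_nonneg_left h7 (by positivity)
      _ ≤ (1 - t/T/2) * VV e x + (t/T)^2 * ‖x (zeroPt T)‖ := by
          have : 0 ≤ (t/T)^2 * ‖x (zeroPt T)‖ := by positivity
          nlinarith
      _ = (1 - t/T/2) * VV e x + (‖x (zeroPt T)‖ / T^2) * t^2 := by rw [h9]; ring

/-- decay estimate when the input acts -/
lemma decay_two (e : Eu n) (he : ‖e‖ = 1) (f : St T n → Eu m → Eu n) (x : St T n) (v : Eu m)
    (hz : 1 < |(inner ℝ e (x (zeroPt T)) : ℝ)|) (hV : ‖x (zeroPt T)‖ < VV e x) :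
    ∀ᶠ t in 𝓝[>] (0 : ℝ), VV e (driverShift f x v t) ≤ (1 - t/T/2) * VV e x := by
  have hT0 := hT.out
  set g := f x v with hg
  set z : ℝ := inner ℝ e (x (zeroPt T)) with hzdef
  have hV0 : 0 < VV e x := (norm_nonneg _).trans_lt hV
  have hev1 : ∀ᶠ t in 𝓝[>] (0 : ℝ), t ≤ T := by
    filter_upwards [Ioo_mem_nhdsGT hT0] with t ht using ht.2.le
  have hev0 : ∀ᶠ t in 𝓝[>] (0 : ℝ), 0 < t := self_mem_nhdsWithin
  have hev2 : ∀ᶠ t in 𝓝[>] (0 : ℝ), ‖x (zeroPt T)‖ + t * ‖g‖ < (1 - t/T/2) * VV e x := by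
    have hc : Continuous fun t : ℝ => (1 - t/T/2) * VV e x - (‖x (zeroPt T)‖ + t * ‖g‖) := by
      fun_prop
    have h0 : (0 : ℝ) < (fun t : ℝ => (1 - t/T/2) * VV e x - (‖x (zeroPt T)‖ + t * ‖g‖)) 0 := by
      simp; linarith
    have := (hc.tendsto 0).eventually (lt_mem_nhds h0)
    filter_upwards [nhdsWithin_le_nhds this] with t ht
    linarith
  have hev3 : ∀ᶠ t in 𝓝[>] (0 : ℝ), t * ‖g‖ < |z| - 1 := by
    have hc : Continuous fun t : ℝ => |z| - 1 - t * ‖g‖ := by fun_prop
    have h0 : (0 : ℝ) < (fun t : ℝ => |z| - 1 - t * ‖g‖) 0 := by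
      simp; linarith
    have := (hc.tendsto 0).eventually (lt_mem_nhds h0)
    filter_upwards [nhdsWithin_le_nhds this] with t ht
    linarith
  filter_upwards [hev0, hev1, hev2, hev3] with t ht0 htT ht2 ht3
  have hd0 : 0 ≤ t / T := by positivity
  have hd1 : t / T ≤ 1 := by rw [div_le_one hT0]; exact htT
  have hin : ∀ r : ℝ, 0 ≤ r → r ≤ t → |(inner ℝ e (x (zeroPt T) + r • g) : ℝ) - z| ≤ t * ‖g‖ := by
    intro r hr0 hrt
    rw [inner_add_right, inner_smul_right, ← hzdef, add_sub_cancel_left, abs_mul, abs_of_nonneg hr0]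
    exact mul_le_mul hrt (inner_le e he g) (abs_nonneg _) ht0.le
  rcases lt_or_gt_of_ne (by intro h; rw [h] at hz; simp at hz; linarith : z ≠ 0) with hneg | hpos
  · have hz1 : |z| = -z := abs_of_neg hneg
    have hneg2 : ∀ r : ℝ, 0 ≤ r → r ≤ t → (inner ℝ e (x (zeroPt T) + r • g) : ℝ) ≤ 0 := by
      intro r hr0 hrt
      have := (abs_le.1 (hin r hr0 hrt)).2
      linarith
    have hlt : lam (inner ℝ e (driverShift f x v t (zeroPt T))) = 3/2 := by
      rw [driverShift_zero f x v ht0.le]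
      exact lam_of_nonpos (hneg2 t ht0.le le_rfl)
    have hl0 : lam z = 3/2 := lam_of_nonpos hneg.le
    have hl : (1 - t/T) * lam (inner ℝ e (driverShift f x v t (zeroPt T)))
        ≤ (1 - t/T/2) * lam (inner ℝ e (x (zeroPt T))) := by
      rw [hlt, ← hzdef, hl0]; linarith
    apply VV_le
    · exact mul_nonneg (by linarith) hV0.le
    intro s
    rcases le_or_gt ((s : ℝ) + t) 0 with hs | hs
    · exact old_part f e x v ht0.le htT hl s hs
    · rw [Phi_apply, driverShift_of_ge f x v s hs.le, hlt, ← hg]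
      have hss := s.2.2
      have h1 := hneg2 ((s : ℝ) + t) hs.le (by linarith)
      have h2 : gf e (3/2) (x (zeroPt T) + ((s : ℝ) + t) • g)
          = ‖x (zeroPt T) + ((s : ℝ) + t) • g‖ := by
        unfold gf
        apply max_eq_left
        have := norm_nonneg (x (zeroPt T) + ((s : ℝ) + t) • g)
        linarith
      rw [h2]
      have h3 : ‖x (zeroPt T) + ((s : ℝ) + t) • g‖ ≤ ‖x (zeroPt T)‖ + t * ‖g‖ := by
        refine (norm_add_le _ _).trans ?_
        rw [norm_smul, Real.norm_eq_abs, abs_of_pos hs]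
        have : ((s : ℝ) + t) * ‖g‖ ≤ t * ‖g‖ :=
          mul_le_mul_of_nonneg_right (by linarith) (norm_nonneg _)
        linarith
      have h4 := kap_nonneg s
      have h5 := kap_le_one s
      have h6 := norm_nonneg (x (zeroPt T) + ((s : ℝ) + t) • g)
      nlinarith
  · have hz1 : |z| = z := abs_of_pos hpos
    have hpos2 : ∀ r : ℝ, 0 ≤ r → r ≤ t → 1 ≤ (inner ℝ e (x (zeroPt T) + r • g) : ℝ) := by
      intro r hr0 hrt
      have := (abs_le.1 (hin r hr0 hrt)).1
      linarith
    have hlt : lam (inner ℝ e (driverShift f x v t (zeroPt T))) = 1 := by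
      rw [driverShift_zero f x v ht0.le]
      exact lam_of_one_le (hpos2 t ht0.le le_rfl)
    have hl0 : lam z = 1 := lam_of_one_le (by linarith)
    have hl : (1 - t/T) * lam (inner ℝ e (driverShift f x v t (zeroPt T)))
        ≤ (1 - t/T/2) * lam (inner ℝ e (x (zeroPt T))) := by
      rw [hlt, ← hzdef, hl0]; linarith
    apply VV_le
    · exact mul_nonneg (by linarith) hV0.le
    intro s
    rcases le_or_gt ((s : ℝ) + t) 0 with hs | hs
    · exact old_part f e x v ht0.le htT hl s hs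
    · rw [Phi_apply, driverShift_of_ge f x v s hs.le, hlt, ← hg]
      have hss := s.2.2
      have h2 : gf e 1 (x (zeroPt T) + ((s : ℝ) + t) • g)
          = ‖x (zeroPt T) + ((s : ℝ) + t) • g‖ := by
        unfold gf
        apply max_eq_left
        have := (abs_le.1 (inner_le e he (x (zeroPt T) + ((s : ℝ) + t) • g))).2
        linarith
      rw [h2]
      have h3 : ‖x (zeroPt T) + ((s : ℝ) + t) • g‖ ≤ ‖x (zeroPt T)‖ + t * ‖g‖ := by
        refine (norm_add_le _ _).trans ?_
        rw [norm_smul, Real.norm_eq_abs, abs_of_pos hs]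
        have : ((s : ℝ) + t) * ‖g‖ ≤ t * ‖g‖ :=
          mul_le_mul_of_nonneg_right (by linarith) (norm_nonneg _)
        linarith
      have h4 := kap_nonneg s
      have h5 := kap_le_one s
      have h6 := norm_nonneg (x (zeroPt T) + ((s : ℝ) + t) • g)
      nlinarith

/-- The dissipation inequality. -/
theorem dissipation (e : Eu n) (he : ‖e‖ = 1) (e' : Eu m) (he' : ‖e'‖ = 1) (x : St T n) (v : Eu m)
    (hxv : ‖v‖ ≤ ‖x (zeroPt T)‖) :
    driverDeriv (ff e e') (VV e) x v ≤ ((-(1 / (2 * T) * ‖x (zeroPt T)‖) : ℝ) : EReal) := by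
  have hT0 := hT.out
  have hx0 := norm_nonneg (x (zeroPt T))
  have hVx := norm_zero_le_VV e x
  -- a uniform eventual bound
  have key : ∀ᶠ t in 𝓝[>] (0 : ℝ), VV e (driverShift (ff e e') x v t)
      ≤ (1 - t/T/2) * VV e x + (‖x (zeroPt T)‖ / T^2) * t^2 := by
    by_cases hg : gain e e' x v = 0
    · have hf : ff e e' x v = -(1 / T) • x (zeroPt T) := by
        unfold ff; rw [hg, zero_smul, add_zero]
      filter_upwards [self_mem_nhdsWithin, Ioo_mem_nhdsGT hT0] with t ht0 htT
      exact decay_one e he (ff e e') x v hf (le_of_lt ht0) htT.2.le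
    · unfold gain at hg
      have h1 : dz (inner ℝ e' v) ≠ 0 := left_ne_zero_of_mul hg
      have h23 := right_ne_zero_of_mul hg
      have h2 : VV e x - ‖x (zeroPt T)‖ ≠ 0 := left_ne_zero_of_mul h23
      have h3 : rho e (x (zeroPt T)) ≠ 0 := right_ne_zero_of_mul h23
      have h4 : 2 < |(inner ℝ e' v : ℝ)| := by
        by_contra h
        exact h1 (dz_of_abs_le (not_lt.1 h))
      have h5 : 2 < ‖x (zeroPt T)‖ := by
        have := inner_le e' he' v
        linarith
      have h6 : ‖x (zeroPt T)‖ < VV e x := lt_of_le_of_ne hVx (by intro h; apply h2; linarith)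
      have h7 : 1 < |(inner ℝ e (x (zeroPt T)) : ℝ)| := by
        by_contra h
        apply h3
        unfold rho
        apply max_eq_left
        rw [not_lt] at h
        linarith
      filter_upwards [decay_two e he (ff e e') x v h7 h6] with t ht
      have : 0 ≤ (‖x (zeroPt T)‖ / T^2) * t^2 := by positivity
      linarith
  -- conclude
  have hlim : Tendsto (fun t : ℝ => (((-(1 / (2 * T) * ‖x (zeroPt T)‖)
      + (‖x (zeroPt T)‖ / T^2) * t : ℝ)) : EReal)) (𝓝[>] 0)
      (𝓝 ((-(1 / (2 * T) * ‖x (zeroPt T)‖) : ℝ) : EReal)) := by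
    apply (continuous_coe_real_ereal.tendsto _).comp
    have hc : Continuous fun t : ℝ => -(1 / (2 * T) * ‖x (zeroPt T)‖)
      + (‖x (zeroPt T)‖ / T^2) * t := by fun_prop
    have := hc.tendsto 0
    simp only [mul_zero, add_zero] at this
    exact this.mono_left nhdsWithin_le_nhds
  rw [← hlim.limsup_eq]
  unfold driverDeriv
  apply limsup_le_limsup
  · filter_upwards [key, self_mem_nhdsWithin] with t ht ht0
    rw [EReal.coe_le_coe_iff]
    have ht0' : (0:ℝ) < t := ht0
    rw [div_le_iff₀ ht0']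
    have h1 : t / T / 2 * ‖x (zeroPt T)‖ ≤ t / T / 2 * VV e x :=
      mul_le_mul_of_nonneg_left hVx (by positivity)
    have h2 : (-(1 / (2 * T) * ‖x (zeroPt T)‖) + (‖x (zeroPt T)‖ / T^2) * t) * t
        = -(t / T / 2 * ‖x (zeroPt T)‖) + (‖x (zeroPt T)‖ / T^2) * t^2 := by
      field_simp
    rw [h2]
    linarith
  all_goals first | exact isCobounded_le_of_bot | exact isBounded_le_of_top

end

end Pool.Agent.W_MP_9da05b_an
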