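import Mathlib
import Pool.Agent.W_MP_9da05b_an.Adm
import Pool.Agent.W_MP_9da05b_an.Diss

set_option autoImplicit false

namespace Pool.Agent.W_MP_9da05b_an

open Set Filter Topology MeasureTheory

noncomputable section

variable {T : ℝ} [hT : Fact (0 < T)] {n m : ℕ}

/-- essential bound of an input -/
lemma input_bound {u : ℝ → Eu m} (hu : IsInput u) :
    ∀ᵐ r ∂(volume.restrict (Ici (0 : ℝ))), ‖u r‖ ≤ inputNorm u := by
  unfold inputNorm
  have h1 : eLpNorm u ⊤ (volume.restrict (Ici (0 : ℝ))) ≠ ⊤ := hu.2.ne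
  have h2 := ae_le_eLpNormEssSup (f := u) (μ := volume.restrict (Ici (0 : ℝ)))
  filter_upwards [h2] with r hr
  rw [← eLpNorm_exponent_top] at hr
  have := ENNReal.toReal_mono h1 hr
  simpa using this

section Sol

variable {f : St T n → Eu m → Eu n} {x : St T n} {u : ℝ → Eu m} {b : ℝ}
  {y : ℝ → Eu n} {φ : ℝ → St T n}

lemma IsSol.zero_eval (h : IsSol f x u b y φ) {t : ℝ} (ht : t ∈ Ico 0 b) :
    φ t (zeroPt T) = y t := by
  have := h.seg t ht (zeroPt T)
  simpa [zeroPt] using this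

lemma IsSol.hist_neg (h : IsSol f x u b y φ) (hb : 0 < b) {s : ℝ} (hs : s ∈ Icc (-T) (0:ℝ)) :
    y s = x ⟨s, hs⟩ := by
  have := h.seg 0 ⟨le_rfl, hb⟩ ⟨s, hs⟩
  rw [h.init] at this
  simpa using this.symm

lemma IsSol.int_sub (h : IsSol f x u b y φ) {t t' : ℝ} (ht : t ∈ Ico 0 b) (ht' : t' ∈ Ico 0 b) :
    IntervalIntegrable (fun r => f (φ r) (u r)) volume t t' :=
  (h.int t ht).symm.trans (h.int t' ht')

lemma IsSol.sub_eq (h : IsSol f x u b y φ) {t t' : ℝ} (ht : t ∈ Ico 0 b) (ht' : t' ∈ Ico 0 b) :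
    y t' = y t + ∫ r in t..t', f (φ r) (u r) := by
  rw [h.ode t' ht', h.ode t ht, ← intervalIntegral.integral_add_adjacent_intervals (h.int t ht)
    (h.int_sub ht ht'), add_assoc]

/-- boundedness of a solution on compact intervals -/
lemma IsSol.bounded (h : IsSol f x u b y φ) (hb : 0 < b) {c : ℝ} (hc : c ∈ Ico 0 b) :
    ∃ B : ℝ, 0 ≤ B ∧ ∀ t ∈ Icc (-T) c, ‖y t‖ ≤ B := by
  have hcont : ContinuousOn (fun t => ∫ r in (0:ℝ)..t, f (φ r) (u r)) (uIcc 0 c) :=
    intervalIntegral.continuousOn_primitive_interval' (h.int c hc) left_mem_uIcc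
  obtain ⟨C, hC⟩ := (isCompact_uIcc).exists_bound_of_continuousOn hcont
  refine ⟨‖x‖ + max C 0, by positivity, ?_⟩
  intro t ht
  rcases le_or_gt t 0 with h0 | h0
  · rw [h.hist_neg hb ⟨ht.1, h0⟩]
    have := x.norm_coe_le_norm ⟨t, ht.1, h0⟩
    have h2 := le_max_right C 0
    linarith
  · have ht2 : t ∈ Ico 0 b := ⟨h0.le, ht.2.trans_lt hc.2⟩
    rw [h.ode t ht2]
    have h1 : ‖y 0‖ ≤ ‖x‖ := by
      rw [h.hist_neg hb (s := 0) ⟨(neg_neg_of_pos hT.out).le, le_rfl⟩]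
      exact x.norm_coe_le_norm _
    have h2 := hC t (by rw [uIcc_of_le hc.1]; exact ⟨h0.le, ht.2⟩)
    refine (norm_add_le _ _).trans ?_
    have h3 := le_max_left C 0
    linarith

lemma IsSol.norm_state_le (h : IsSol f x u b y φ) {c B : ℝ} (hc : c ∈ Ico 0 b) (hB0 : 0 ≤ B)
    (hB : ∀ t ∈ Icc (-T) c, ‖y t‖ ≤ B) {t : ℝ} (ht : t ∈ Icc 0 c) : ‖φ t‖ ≤ B := by
  rw [ContinuousMap.norm_le _ hB0]
  intro s
  rw [h.seg t ⟨ht.1, ht.2.trans_lt hc.2⟩ s]
  apply hB
  have h1 := s.2.1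
  have h2 := s.2.2
  exact ⟨by linarith [ht.1], by linarith [ht.2]⟩

/-- continuity of the solution on `[-T,c]` -/
lemma IsSol.continuousOn (h : IsSol f x u b y φ) (hb : 0 < b) {c : ℝ} (hc : c ∈ Ico 0 b) :
    ContinuousOn y (Icc (-T) c) := by
  have hT0 := hT.out
  have hcont : ContinuousOn (fun t => ∫ r in (0:ℝ)..t, f (φ r) (u r)) (uIcc 0 c) :=
    intervalIntegral.continuousOn_primitive_interval' (h.int c hc) left_mem_uIcc
  rw [uIcc_of_le hc.1] at hcont
  have h1 : ContinuousOn (fun t : ℝ => x (projIcc (-T) 0 (neg_neg_of_pos hT.out).le t)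
      + ∫ r in (0:ℝ)..(max t 0), f (φ r) (u r)) (Icc (-T) c) := by
    apply ContinuousOn.fun_add
    · exact (x.continuous.comp continuous_projIcc).continuousOn
    · apply hcont.comp (f := fun t : ℝ => max t 0)
        (by fun_prop)
      intro t ht
      exact ⟨le_max_right _ _, max_le ht.2 hc.1⟩
  apply h1.congr
  intro t ht
  rcases le_or_gt t 0 with h0 | h0
  · simp only
    rw [max_eq_right h0, intervalIntegral.integral_same, add_zero, projIcc_of_mem _ ⟨ht.1, h0⟩]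
    exact h.hist_neg hb ⟨ht.1, h0⟩
  · simp only
    rw [max_eq_left h0.le, projIcc_of_right_le _ h0.le,
      h.ode t ⟨h0.le, ht.2.trans_lt hc.2⟩,
      h.hist_neg hb (s := 0) ⟨(neg_neg_of_pos hT.out).le, le_rfl⟩]

end Sol

end

end Pool.Agent.W_MP_9da05b_an
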