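import Mathlib
import Pool.Agent.W_MP_9da05b_an.Reg1

set_option autoImplicit false
set_option linter.unusedSectionVars false

namespace Pool.Agent.W_MP_9da05b_an

open Set Filter Topology MeasureTheory

noncomputable section

variable {T : ℝ} [hT : Fact (0 < T)] {n m : ℕ}

/-- angular frequency -/
def om (T : ℝ) : ℝ := 200 * Real.pi / T

/-- scalar trajectory -/
def aa (T : ℝ) (t : ℝ) : ℝ := Real.exp (t / T) * (Real.cos (om T * t) - 1/10)

/-- its derivative -/
def aa' (T : ℝ) (t : ℝ) : ℝ :=
  Real.exp (t / T) * (1 / T) * (Real.cos (om T * t) - 1/10)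
    + Real.exp (t / T) * (-Real.sin (om T * t) * om T)

lemma hasDerivAt_aa (T t : ℝ) : HasDerivAt (aa T) (aa' T t) t := by
  unfold aa aa'
  have h1 : HasDerivAt (fun t : ℝ => t / T) (1 / T) t := (hasDerivAt_id t).div_const T
  have h2 : HasDerivAt (fun t : ℝ => om T * t) (om T) t := by
    simpa using (hasDerivAt_id t).const_mul (om T)
  have h3 := h1.exp
  have h4 := h2.cos.sub_const (1/10)
  exact h3.mul h4

lemma continuous_aa (T : ℝ) : Continuous (aa T) := by unfold aa; fun_prop

lemma continuous_aa' (T : ℝ) : Continuous (aa' T) := by unfold aa'; fun_prop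

lemma om_pos : 0 < om T := by
  have := hT.out
  unfold om
  positivity

lemma aa'_abs_le (t : ℝ) :
    |aa' T t + aa T t / T| ≤ (11/5 * (1 / T) + om T) * Real.exp (t / T) := by
  have hT0 := hT.out
  have hE := Real.exp_pos (t / T)
  have hom := om_pos (T := T)
  have h1 := Real.cos_le_one (om T * t)
  have h2 := Real.neg_one_le_cos (om T * t)
  have h3 := Real.sin_le_one (om T * t)
  have h4 := Real.neg_one_le_sin (om T * t)
  have h5 : aa' T t + aa T t / T = Real.exp (t / T) *
      (2 * (1 / T) * (Real.cos (om T * t) - 1/10) - Real.sin (om T * t) * om T) := by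
    unfold aa' aa; ring
  rw [h5, abs_mul, abs_of_pos hE, mul_comm]
  apply mul_le_mul_of_nonneg_right _ hE.le
  have hT1 : 0 < 1 / T := by positivity
  rw [abs_le]
  constructor
  · nlinarith [mul_nonneg hT1.le (by linarith : 0 ≤ 1 + Real.cos (om T * t)),
      mul_nonneg hom.le (by linarith : 0 ≤ 1 - Real.sin (om T * t))]
  · nlinarith [mul_nonneg hT1.le (by linarith : 0 ≤ 1 - Real.cos (om T * t)),
      mul_nonneg hom.le (by linarith : 0 ≤ 1 + Real.sin (om T * t))]

/-- state trajectory -/
def traj (T : ℝ) (e : Eu n) : C(ℝ, St T n) :=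
  ContinuousMap.curry ⟨fun p : ℝ × Icc (-T) (0:ℝ) => aa T (p.1 + (p.2 : ℝ)) • e, by
    have := continuous_aa T
    fun_prop⟩

lemma traj_apply (e : Eu n) (t : ℝ) (s : Icc (-T) (0:ℝ)) :
    traj T e t s = aa T (t + (s : ℝ)) • e := rfl

lemma traj_zero (e : Eu n) (t : ℝ) : traj T e t (zeroPt T) = aa T t • e := by
  rw [traj_apply]; simp [zeroPt]

lemma aa_abs_le (t : ℝ) : |aa T t| ≤ 11/10 * Real.exp (t / T) := by
  have hE := Real.exp_pos (t / T)
  unfold aa
  rw [abs_mul, abs_of_pos hE, mul_comm]
  apply mul_le_mul_of_nonneg_right _ hE.le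
  have h1 := Real.cos_le_one (om T * t)
  have h2 := Real.neg_one_le_cos (om T * t)
  rw [abs_le]; constructor <;> linarith

lemma aa_le (t : ℝ) : aa T t ≤ 9/10 * Real.exp (t / T) := by
  have hE := Real.exp_pos (t / T)
  unfold aa
  rw [mul_comm]
  apply mul_le_mul_of_nonneg_right _ hE.le
  have h1 := Real.cos_le_one (om T * t)
  linarith

lemma exp_shift {t r : ℝ} (h : t - T / 100 ≤ r) :
    99/100 * Real.exp (t / T) ≤ Real.exp (r / T) := by
  have hT0 := hT.out
  have h1 : t / T - 1/100 ≤ r / T := by
    have : (t - T / 100) / T ≤ r / T := div_le_div_of_nonneg_right h hT0.le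
    have h2 : (t - T / 100) / T = t / T - 1/100 := by field_simp
    linarith
  have h2 : Real.exp (t / T - 1/100) ≤ Real.exp (r / T) := Real.exp_le_exp.2 h1
  have h3 : Real.exp (t / T - 1/100) = Real.exp (t / T) * Real.exp (-(1/100)) := by
    rw [← Real.exp_add]; congr 1
  have h4 : 99/100 ≤ Real.exp (-(1/100 : ℝ)) := by
    have := Real.add_one_le_exp (-(1/100 : ℝ))
    linarith
  have hE := Real.exp_pos (t / T)
  nlinarith

/-- The functional dominates the norm along the trajectory. -/
lemma gap (e : Eu n) (he : ‖e‖ = 1) (t : ℝ) :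
    1/10 * Real.exp (t / T) ≤ VV e (traj T e t) - |aa T t| := by
  have hT0 := hT.out
  have hE := Real.exp_pos (t / T)
  have hee : (inner ℝ e e : ℝ) = 1 := by
    rw [real_inner_self_eq_norm_sq, he]; norm_num
  have hp : 0 < T / 100 := by positivity
  rcases le_or_gt (aa T t) 0 with ha | ha
  · -- use last positive peak
    set k : ℤ := ⌊t / (T / 100)⌋ with hk
    have hk1 : (k : ℝ) * (T / 100) ≤ t := by
      have := Int.floor_le (t / (T / 100))
      rwa [le_div_iff₀ hp] at this
    have hk2 : t < (k : ℝ) * (T / 100) + T / 100 := by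
      have := Int.lt_floor_add_one (t / (T / 100))
      rw [← hk, div_lt_iff₀ hp] at this
      linarith
    set tp := (k : ℝ) * (T / 100) with htp
    have hs1 : -T ≤ tp - t := by linarith
    have hs2 : tp - t ≤ 0 := by linarith
    set s : Icc (-T) (0:ℝ) := ⟨tp - t, hs1, hs2⟩ with hs
    have hcos : Real.cos (om T * tp) = 1 := by
      have : om T * tp = (k : ℝ) * (2 * Real.pi) := by
        unfold om; rw [htp]; field_simp; ring
      rw [this]
      exact Real.cos_int_mul_two_pi k
    have hatp : aa T tp = 9/10 * Real.exp (tp / T) := by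
      unfold aa; rw [hcos]; ring
    have hlam : lam (inner ℝ e (traj T e t (zeroPt T))) = 3/2 := by
      rw [traj_zero, inner_smul_right, hee, mul_one]
      exact lam_of_nonpos ha
    have hP := Phi_le_VV e (traj T e t) s
    rw [Phi_apply, hlam, traj_apply] at hP
    have hts : t + (s : ℝ) = tp := by simp only [hs]; ring
    rw [hts, hatp] at hP
    have hg : 3/2 * (9/10 * Real.exp (tp / T)) ≤ gf e (3/2) ((9/10 * Real.exp (tp / T)) • e) := by
      unfold gf
      rw [inner_smul_right, hee, mul_one]
      exact le_max_right _ _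
    have hkap : 99/100 ≤ kap T s := by
      unfold kap
      simp only [hs]
      have : -(1/100) ≤ (tp - t) / T := by
        rw [le_div_iff₀ hT0]; linarith
      linarith
    have hex := exp_shift (T := T) (t := t) (r := tp) (by linarith)
    have hE2 := Real.exp_pos (tp / T)
    have h1 : 99/100 * (3/2 * (9/10 * Real.exp (tp / T)))
        ≤ kap T s * gf e (3/2) ((9/10 * Real.exp (tp / T)) • e) :=
      mul_le_mul hkap hg (by positivity) (by linarith)
    have h2 := aa_abs_le (T := T) t
    nlinarith
  · set k : ℤ := ⌊t / (T / 100) + 1/2⌋ with hk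
    have hk1 : (k : ℝ) * (T / 100) - T / 200 ≤ t := by
      have := Int.floor_le (t / (T / 100) + 1/2)
      rw [← hk] at this
      have h2 : (k : ℝ) - 1/2 ≤ t / (T / 100) := by linarith
      rw [le_div_iff₀ hp] at h2
      linarith
    have hk2 : t < (k : ℝ) * (T / 100) - T / 200 + T / 100 := by
      have := Int.lt_floor_add_one (t / (T / 100) + 1/2)
      rw [← hk] at this
      have h2 : t / (T / 100) < (k : ℝ) + 1 - 1/2 := by linarith
      rw [div_lt_iff₀ hp] at h2
      linarith
    set tp := (k : ℝ) * (T / 100) - T / 200 with htp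
    have hs1 : -T ≤ tp - t := by linarith
    have hs2 : tp - t ≤ 0 := by linarith
    set s : Icc (-T) (0:ℝ) := ⟨tp - t, hs1, hs2⟩ with hs
    have hcos : Real.cos (om T * tp) = -1 := by
      have : om T * tp = (k : ℝ) * (2 * Real.pi) - Real.pi := by
        unfold om; rw [htp]; field_simp; ring
      rw [this, Real.cos_sub_pi, Real.cos_int_mul_two_pi k]
    have hatp : aa T tp = -(11/10 * Real.exp (tp / T)) := by
      unfold aa; rw [hcos]; ring
    have hP := Phi_le_VV e (traj T e t) s
    rw [Phi_apply, traj_apply e t s] at hP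
    have hts : t + (s : ℝ) = tp := by simp only [hs]; ring
    rw [hts, hatp] at hP
    have hE2 := Real.exp_pos (tp / T)
    have hg : 11/10 * Real.exp (tp / T) ≤ gf e (lam (inner ℝ e (traj T e t (zeroPt T))))
        ((-(11/10 * Real.exp (tp / T))) • e) := by
      refine le_trans ?_ (norm_le_gf _ _ _)
      rw [norm_smul, he, mul_one, Real.norm_eq_abs, abs_neg, abs_of_pos (by positivity)]
    have hkap : 99/100 ≤ kap T s := by
      unfold kap
      simp only [hs]
      have : -(1/100) ≤ (tp - t) / T := by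
        rw [le_div_iff₀ hT0]; linarith
      linarith
    have hex := exp_shift (T := T) (t := t) (r := tp) (by linarith)
    have h1 : 99/100 * (11/10 * Real.exp (tp / T))
        ≤ kap T s * gf e (lam (inner ℝ e (traj T e t (zeroPt T))))
          ((-(11/10 * Real.exp (tp / T))) • e) :=
      mul_le_mul hkap hg (by positivity) (by linarith)
    have h2 := aa_le (T := T) t
    rw [abs_of_pos ha]
    nlinarith

/-- the required gain -/
def qq (T : ℝ) [Fact (0 < T)] (e : Eu n) (t : ℝ) : ℝ :=
  (aa' T t + aa T t / T) / (VV e (traj T e t) - |aa T t|)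

lemma gap_pos (e : Eu n) (he : ‖e‖ = 1) (t : ℝ) : 0 < VV e (traj T e t) - |aa T t| := by
  have := gap (T := T) e he t
  have hE := Real.exp_pos (t / T)
  linarith

lemma qq_abs_le (e : Eu n) (he : ‖e‖ = 1) (t : ℝ) :
    |qq T e t| ≤ 10 * (11/5 * (1 / T) + om T) := by
  unfold qq
  have h1 := gap (T := T) e he t
  have h2 := gap_pos (T := T) e he t
  have h3 := aa'_abs_le (T := T) t
  have hE := Real.exp_pos (t / T)
  have hT0 := hT.out
  have hom := om_pos (T := T)
  rw [abs_div, abs_of_pos h2, div_le_iff₀ h2]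
  have h4 : 0 ≤ 11/5 * (1 / T) + om T := by positivity
  nlinarith [mul_le_mul_of_nonneg_left h1 h4]

/-- the input -/
def uu (T : ℝ) [Fact (0 < T)] (e : Eu n) (e' : Eu m) (t : ℝ) : Eu m :=
  (if 0 < qq T e t then qq T e t + 2 else if qq T e t < 0 then qq T e t - 2 else 0) • e'

lemma continuous_qq (e : Eu n) (he : ‖e‖ = 1) : Continuous (qq T e) := by
  unfold qq
  apply Continuous.div
  · exact (continuous_aa' T).add ((continuous_aa T).div_const T)
  · exact ((continuous_VV e he).comp (traj T e).continuous).sub (continuous_aa T).abs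
  · intro t
    exact (gap_pos (T := T) e he t).ne'

lemma isInput_uu (e : Eu n) (he : ‖e‖ = 1) (e' : Eu m) (he' : ‖e'‖ = 1) :
    IsInput (uu T e e') := by
  unfold IsInput
  have hq := (continuous_qq (T := T) e he).measurable
  have hm : Measurable (uu T e e') := by
    unfold uu
    have h1 : Measurable (fun t => if 0 < qq T e t then qq T e t + 2
        else if qq T e t < 0 then qq T e t - 2 else 0) := by
      apply Measurable.ite (measurableSet_lt measurable_const hq) (hq.add_const 2)
      exact Measurable.ite (measurableSet_lt hq measurable_const) (hq.sub_const 2) measurable_const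
    exact h1.smul_const e'
  apply memLp_top_of_bound hm.aestronglyMeasurable (10 * (11/5 * (1 / T) + om T) + 2)
  apply Eventually.of_forall
  intro t
  unfold uu
  rw [norm_smul, he', mul_one, Real.norm_eq_abs]
  have h1 := qq_abs_le (T := T) e he t
  have h2 := abs_le.1 h1
  split_ifs with h3 h4
  · rw [abs_of_pos (by linarith)]; linarith
  · rw [abs_of_neg (by linarith)]; linarith
  · rw [abs_zero]
    have := (abs_nonneg _).trans h1
    linarith

lemma dz_uu (e : Eu n) (e' : Eu m) (he' : ‖e'‖ = 1) (t : ℝ) :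
    dz (inner ℝ e' (uu T e e' t)) = qq T e t := by
  have hee : (inner ℝ e' e' : ℝ) = 1 := by
    rw [real_inner_self_eq_norm_sq, he']; norm_num
  unfold uu
  rw [inner_smul_right, hee, mul_one]
  split_ifs with h3 h4
  · exact dz_add_two h3
  · exact dz_sub_two h4
  · rw [dz_zero]
    linarith

lemma ff_traj (e : Eu n) (he : ‖e‖ = 1) (e' : Eu m) (he' : ‖e'‖ = 1) (t : ℝ) :
    ff e e' (traj T e t) (uu T e e' t) = aa' T t • e := by
  have hee : (inner ℝ e e : ℝ) = 1 := by
    rw [real_inner_self_eq_norm_sq, he]; norm_num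
  have hT0 := hT.out
  have hg := gap_pos (T := T) e he t
  have hnorm : ‖traj T e t (zeroPt T)‖ = |aa T t| := by
    rw [traj_zero, norm_smul, he, mul_one, Real.norm_eq_abs]
  have hrho : rho e (traj T e t (zeroPt T)) = 1 := by
    unfold rho
    rw [hnorm, traj_zero, inner_smul_right, hee, mul_one, add_sub_cancel_right]
    exact max_eq_right zero_le_one
  unfold ff gain
  rw [dz_uu e e' he' t, hnorm, hrho, mul_one, traj_zero, smul_smul, ← add_smul]
  congr 1
  unfold qq
  rw [div_mul_cancel₀ _ hg.ne']
  ring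

lemma isSol_traj (e : Eu n) (he : ‖e‖ = 1) (e' : Eu m) (he' : ‖e'‖ = 1) (b : ℝ) :
    IsSol (ff e e') (traj T e 0) (uu T e e') b (fun t => aa T t • e) (fun t => traj T e t) where
  init := rfl
  seg := fun t _ s => traj_apply e t s
  int := by
    intro t _
    have : (fun r => ff e e' (traj T e r) (uu T e e' r)) = fun r => aa' T r • e := by
      ext1 r; exact ff_traj e he e' he' r
    rw [this]
    exact ((continuous_aa' T).smul continuous_const).intervalIntegrable _ _
  ode := by
    intro t _
    have : (fun r => ff e e' (traj T e r) (uu T e e' r)) = fun r => aa' T r • e := by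
      ext1 r; exact ff_traj e he e' he' r
    rw [this]
    have h1 : ∫ r in (0:ℝ)..t, aa' T r • e = aa T t • e - aa T 0 • e := by
      apply intervalIntegral.integral_eq_sub_of_hasDerivAt
      · intro r _
        exact (hasDerivAt_aa T r).smul_const e
      · exact ((continuous_aa' T).smul continuous_const).intervalIntegrable _ _
    rw [h1]
    abel

/-- The system is not ISS. -/
theorem not_ISS (e : Eu n) (he : ‖e‖ = 1) (e' : Eu m) (he' : ‖e'‖ = 1) :
    ¬ ISS (ff e e' : St T n → Eu m → Eu n) := by
  rintro ⟨β, γ, hβ, hγ, hISS⟩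
  have hT0 := hT.out
  obtain ⟨_, hall⟩ := hISS (traj T e 0) (uu T e e') (isInput_uu e he e' he')
  set M := β ‖traj T e 0‖ 0 + γ (inputNorm (uu T e e')) with hM
  have hbound : ∀ t : ℝ, 0 ≤ t → |aa T t| ≤ M := by
    intro t ht
    have h1 := hall (t + 1) (fun t => aa T t • e) (fun t => traj T e t) (by linarith)
      (isSol_traj e he e' he' (t + 1)) t ⟨ht, by linarith⟩
    have h2 : ‖traj T e t (zeroPt T)‖ = |aa T t| := by
      rw [traj_zero, norm_smul, he, mul_one, Real.norm_eq_abs]
    rw [h2] at h1
    have h3 : β ‖traj T e 0‖ t ≤ β ‖traj T e 0‖ 0 :=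
      (hβ.2.2 ‖traj T e 0‖ (norm_nonneg _)).1 (mem_Ici.2 le_rfl) (mem_Ici.2 ht) ht
    linarith
  obtain ⟨k, hk⟩ := exists_nat_gt (M * (10/9))
  have h1 := hbound ((k : ℝ) * T) (by positivity)
  have hcos : Real.cos (om T * ((k : ℝ) * T)) = 1 := by
    have : om T * ((k : ℝ) * T) = ((100 * k : ℕ) : ℝ) * (2 * Real.pi) := by
      unfold om; push_cast; field_simp; ring
    rw [this]
    exact Real.cos_nat_mul_two_pi _
  have h2 : aa T ((k : ℝ) * T) = 9/10 * Real.exp k := by
    unfold aa
    rw [hcos, mul_div_assoc, div_self hT0.ne', mul_one]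
    ring
  rw [h2, abs_of_pos (by positivity)] at h1
  have h3 := Real.add_one_le_exp (k : ℝ)
  linarith

end

end Pool.Agent.W_MP_9da05b_an
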