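import Mathlib
import Pool.Agent.W_MP_9da05b_an.Reg1

set_option autoImplicit false

namespace Pool.Agent.W_MP_9da05b_an

open Set Filter Topology MeasureTheory

noncomputable section

variable {T : ℝ} [hT : Fact (0 < T)] {n m : ℕ}

section Sol

variable {e : Eu n} {e' : Eu m} {x : St T n} {u : ℝ → Eu m} {b : ℝ}
  {y : ℝ → Eu n} {φ : ℝ → St T n}

lemma sol_lip (he : ‖e‖ = 1) (he' : ‖e'‖ = 1) (hu : IsInput u)
    (h : IsSol (ff e e') x u b y φ) {c B : ℝ} (hc : c ∈ Ico 0 b) (hB0 : 0 ≤ B)
    (hB : ∀ t ∈ Icc (-T) c, ‖y t‖ ≤ B) {t t' : ℝ} (ht : t ∈ Icc 0 c) (ht' : t' ∈ Icc 0 c)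
    (htt : t ≤ t') :
    ‖y t' - y t‖ ≤ ((1 / T + 3/2 * inputNorm u) * B) * (t' - t) := by
  have hT0 := hT.out
  have h1 : y t' - y t = ∫ r in t..t', ff e e' (φ r) (u r) := by
    rw [h.sub_eq ⟨ht.1, ht.2.trans_lt hc.2⟩ ⟨ht'.1, ht'.2.trans_lt hc.2⟩]
    abel
  rw [h1]
  have h2 : ∀ᵐ r, r ∈ uIoc t t' → ‖ff e e' (φ r) (u r)‖ ≤ (1 / T + 3/2 * inputNorm u) * B := by
    have h3 := input_bound hu
    rw [ae_restrict_iff' measurableSet_Ici] at h3
    filter_upwards [h3] with r hr hrr
    rw [uIoc_of_le htt] at hrr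
    have hr0 : r ∈ Icc 0 c := ⟨ht.1.trans hrr.1.le, hrr.2.trans ht'.2⟩
    have h4 := hr hr0.1
    have h5 := h.norm_state_le hc hB0 hB hr0
    have h6 := norm_ff_le e he e' he' (φ r) (u r)
    refine h6.trans ?_
    have h7 : 0 ≤ 1 / T := by positivity
    apply mul_le_mul (by linarith) h5 (norm_nonneg _)
    have : 0 ≤ inputNorm u := ENNReal.toReal_nonneg
    positivity
  have := intervalIntegral.norm_integral_le_of_norm_le_const_ae h2
  rwa [abs_of_nonneg (by linarith)] at this

lemma w_lip (he : ‖e‖ = 1) (he' : ‖e'‖ = 1) (hu : IsInput u) (hb : 0 < b)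
    (h : IsSol (ff e e') x u b y φ) {c : ℝ} (hc : c ∈ Ico 0 b) :
    ∃ K : ℝ, 0 ≤ K ∧ ∀ t ∈ Icc 0 c, ∀ t' ∈ Icc 0 c, t ≤ t' →
      |VV e (φ t') - VV e (φ t)| ≤ K * (t' - t) := by
  have hT0 := hT.out
  obtain ⟨B, hB0, hB⟩ := h.bounded hb hc
  set L : ℝ := (1 / T + 3/2 * inputNorm u) * B with hL
  have hU : 0 ≤ inputNorm u := ENNReal.toReal_nonneg
  have hL0 : 0 ≤ L := by positivity
  refine ⟨3/2 * L + 1/2 * L * B + 3/2 * B / T, by positivity, ?_⟩
  intro t ht t' ht' htt
  set d := t' - t with hd
  have hd0 : 0 ≤ d := by linarith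
  have htb : t ∈ Ico 0 b := ⟨ht.1, ht.2.trans_lt hc.2⟩
  have htb' : t' ∈ Ico 0 b := ⟨ht'.1, ht'.2.trans_lt hc.2⟩
  have hz : φ t (zeroPt T) = y t := h.zero_eval htb
  have hz' : φ t' (zeroPt T) = y t' := h.zero_eval htb'
  set l := lam (inner ℝ e (y t)) with hl
  set l' := lam (inner ℝ e (y t')) with hl'
  have hyt : ‖y t' - y t‖ ≤ L * d := sol_lip he he' hu h hc hB0 hB ht ht' htt
  have hll : |l' - l| ≤ 1/2 * L * d := by
    have h1 := lam_lip (inner ℝ e (y t')) (inner ℝ e (y t))
    rw [← inner_sub_right] at h1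
    have h2 := inner_le e he (y t' - y t)
    calc |l' - l| ≤ 1/2 * |(inner ℝ e (y t' - y t) : ℝ)| := h1
      _ ≤ 1/2 * (L * d) := by linarith
      _ = _ := by ring
  have hll' : |l - l'| ≤ 1/2 * L * d := by rw [abs_sub_comm]; exact hll
  have hLB : 0 ≤ L * B * d := by positivity
  have hBT : 0 ≤ B / T * d := by positivity
  have hLd : 0 ≤ L * d := by positivity
  have hyB : ∀ s : Icc (-T) (0:ℝ), ∀ r ∈ Icc 0 c, ‖y (r + (s : ℝ))‖ ≤ B := by
    intro s r hr
    apply hB
    have h1 := s.2.1
    have h2 := s.2.2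
    exact ⟨by linarith [hr.1], by linarith [hr.2]⟩
  rw [abs_le]
  constructor
  · -- lower bound : w t ≤ w t' + K d
    have : VV e (φ t) ≤ VV e (φ t') + (3/2 * L + 1/2 * L * B + 3/2 * B / T) * d := by
      apply VV_le
      · have := VV_nonneg e (φ t')
        positivity
      intro s
      rw [Phi_apply, hz, h.seg t htb s, ← hl]
      have hBs := hyB s t ht
      have hk0 := kap_nonneg s
      have hk1 := kap_le_one s
      rcases le_or_gt (t' - T) (t + s) with hs | hs
      · have hs1 : -T ≤ (s : ℝ) - d := by linarith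
        have hs2 : (s : ℝ) - d ≤ 0 := by linarith [s.2.2]
        set s' : Icc (-T) (0:ℝ) := ⟨(s : ℝ) - d, hs1, hs2⟩ with hs'
        have hkk : kap T s = kap T s' + d / T := by
          simp only [kap, hs']; ring
        have hP := Phi_le_VV e (φ t') s'
        rw [Phi_apply, hz', h.seg t' htb' s', ← hl'] at hP
        have hpt : t' + (s' : ℝ) = t + s := by simp only [hs', hd]; ring
        rw [hpt] at hP
        have hg := gf_lip e he (l' := l') (one_le_lam (inner ℝ e (y t))) (lam_le _) (y (t + s)) (y (t + s))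
        rw [sub_self, norm_zero, mul_zero, zero_add, ← hl] at hg
        have hg1 := (abs_le.1 hg).2
        have hg2 : |l - l'| * ‖y (t + s)‖ ≤ 1/2 * L * d * B :=
          mul_le_mul hll' hBs (norm_nonneg _) (by positivity)
        have hg3 := gf_le e he (one_le_lam (inner ℝ e (y t'))) (lam_le _) (y (t + s))
        rw [← hl'] at hg3
        have hg4 := gf_nonneg e l' (y (t + s))
        have hg5 := gf_nonneg e l (y (t + s))
        have hg6 : gf e l (y (t + s)) ≤ gf e l' (y (t + s)) + 1/2 * L * d * B := by linarith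
        calc kap T s * gf e l (y (t + s)) ≤ kap T s * (gf e l' (y (t + s)) + 1/2 * L * d * B) :=
              mul_le_mul_of_nonneg_left hg6 hk0
          _ = kap T s' * gf e l' (y (t + s)) + d / T * gf e l' (y (t + s))
              + kap T s * (1/2 * L * d * B) := by rw [hkk]; ring
          _ ≤ VV e (φ t') + d / T * (3/2 * B) + 1 * (1/2 * L * d * B) := by
              have h1 : d / T * gf e l' (y (t + s)) ≤ d / T * (3/2 * B) :=
                mul_le_mul_of_nonneg_left (by linarith) (by positivity)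
              have h2 : kap T s * (1/2 * L * d * B) ≤ 1 * (1/2 * L * d * B) :=
                mul_le_mul_of_nonneg_right hk1 (by positivity)
              linarith
          _ ≤ _ := by
              have : d / T * (3/2 * B) = 3/2 * B / T * d := by ring
              rw [this]
              nlinarith
      · have hk2 : kap T s ≤ d / T := by
          unfold kap
          rw [show (1 : ℝ) + (s : ℝ) / T = (T + s) / T by field_simp]
          exact div_le_div_of_nonneg_right (by linarith) hT0.le
        have hg3 := gf_le e he (one_le_lam (inner ℝ e (y t))) (lam_le _) (y (t + s))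
        rw [← hl] at hg3
        have hg5 := gf_nonneg e l (y (t + s))
        have h3 := VV_nonneg e (φ t')
        calc kap T s * gf e l (y (t + s)) ≤ d / T * (3/2 * B) :=
              mul_le_mul hk2 (by linarith) hg5 (by positivity)
          _ = 3/2 * B / T * d := by ring
          _ ≤ _ := by nlinarith
    linarith
  · have : VV e (φ t') ≤ VV e (φ t) + (3/2 * L + 1/2 * L * B + 3/2 * B / T) * d := by
      apply VV_le
      · have := VV_nonneg e (φ t)
        positivity
      intro s
      rw [Phi_apply, hz', h.seg t' htb' s, ← hl']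
      have hBs := hyB s t' ht'
      have hk0 := kap_nonneg s
      have hk1 := kap_le_one s
      rcases le_or_gt (t' + (s : ℝ)) t with hs | hs
      · have hs1 : -T ≤ (s : ℝ) + d := by linarith [s.2.1]
        have hs2 : (s : ℝ) + d ≤ 0 := by linarith
        set s' : Icc (-T) (0:ℝ) := ⟨(s : ℝ) + d, hs1, hs2⟩ with hs'
        have hkk : kap T s ≤ kap T s' := by
          simp only [kap, hs']
          have : (s : ℝ) / T ≤ ((s : ℝ) + d) / T := div_le_div_of_nonneg_right (by linarith) hT0.le
          linarith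
        have hP := Phi_le_VV e (φ t) s'
        rw [Phi_apply, hz, h.seg t htb s', ← hl] at hP
        have hpt : t + (s' : ℝ) = t' + s := by simp only [hs', hd]; ring
        rw [hpt] at hP
        have hg := gf_lip e he (l' := l) (one_le_lam (inner ℝ e (y t'))) (lam_le _) (y (t' + s)) (y (t' + s))
        rw [sub_self, norm_zero, mul_zero, zero_add, ← hl'] at hg
        have hg1 := (abs_le.1 hg).2
        have hg2 : |l' - l| * ‖y (t' + s)‖ ≤ 1/2 * L * d * B :=
          mul_le_mul hll hBs (norm_nonneg _) (by positivity)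
        have hg4 := gf_nonneg e l (y (t' + s))
        have hg6 : gf e l' (y (t' + s)) ≤ gf e l (y (t' + s)) + 1/2 * L * d * B := by linarith
        calc kap T s * gf e l' (y (t' + s)) ≤ kap T s * (gf e l (y (t' + s)) + 1/2 * L * d * B) :=
              mul_le_mul_of_nonneg_left hg6 hk0
          _ = kap T s * gf e l (y (t' + s)) + kap T s * (1/2 * L * d * B) := by ring
          _ ≤ kap T s' * gf e l (y (t' + s)) + 1 * (1/2 * L * d * B) := by
              have h1 : kap T s * gf e l (y (t' + s)) ≤ kap T s' * gf e l (y (t' + s)) :=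
                mul_le_mul_of_nonneg_right hkk hg4
              have h2 : kap T s * (1/2 * L * d * B) ≤ 1 * (1/2 * L * d * B) :=
                mul_le_mul_of_nonneg_right hk1 (by positivity)
              linarith
          _ ≤ _ := by
              have : 3/2 * B / T * d = 3/2 * (B / T * d) := by ring
              nlinarith
      · have hg := gf_lip e he (l' := l) (one_le_lam (inner ℝ e (y t'))) (lam_le _) (y (t' + s)) (y t)
        rw [← hl'] at hg
        have hg1 := (abs_le.1 hg).2
        have hg5 := gf_nonneg e l' (y (t' + s))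
        have hyy : ‖y (t' + s) - y t‖ ≤ L * d := by
          have h1 := sol_lip he he' hu h hc hB0 hB ht (t' := t' + s)
            ⟨by linarith [ht.1], by linarith [ht'.2, s.2.2]⟩ hs.le
          rw [← hL] at h1
          have h2 : L * (t' + s - t) ≤ L * d :=
            mul_le_mul_of_nonneg_left (by linarith [s.2.2]) hL0
          linarith
        have hyt2 : ‖y t‖ ≤ B := hB t ⟨by linarith [ht.1], ht.2⟩
        have hg2 : |l' - l| * ‖y t‖ ≤ 1/2 * L * d * B :=
          mul_le_mul hll hyt2 (norm_nonneg _) (by positivity)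
        have hP := Phi_le_VV e (φ t) (zeroPt T)
        rw [Phi_apply, kap_zero, one_mul, hz, ← hl] at hP
        calc kap T s * gf e l' (y (t' + s)) ≤ 1 * gf e l' (y (t' + s)) :=
              mul_le_mul_of_nonneg_right hk1 hg5
          _ ≤ VV e (φ t) + 3/2 * (L * d) + 1/2 * L * d * B := by linarith
          _ ≤ _ := by
              have : 3/2 * B / T * d = 3/2 * (B / T * d) := by ring
              nlinarith
    linarith

lemma w_ac (he : ‖e‖ = 1) (he' : ‖e'‖ = 1) (hu : IsInput u) (hb : 0 < b)
    (h : IsSol (ff e e') x u b y φ) {c : ℝ} (hc : c ∈ Ico 0 b) :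
    AbsolutelyContinuousOnInterval (fun t => VV e (φ t)) 0 c := by
  obtain ⟨K, hK0, hK⟩ := w_lip he he' hu hb h hc
  apply LipschitzOnWith.absolutelyContinuousOnInterval (K := ⟨K, hK0⟩)
  rw [uIcc_of_le hc.1]
  apply LipschitzOnWith.of_dist_le_mul
  intro t ht t' ht'
  rw [Real.dist_eq, Real.dist_eq]
  rcases le_total t t' with h1 | h1
  · rw [abs_sub_comm, abs_sub_comm t t', abs_of_nonneg (by linarith : 0 ≤ t' - t)]
    exact hK t ht t' ht' h1
  · rw [abs_of_nonneg (by linarith : 0 ≤ t - t')]
    exact hK t' ht' t ht h1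

end Sol

end

end Pool.Agent.W_MP_9da05b_an
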