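import Mathlib
import Pool.Agent.W_MP_9da05b_an.Reg2

set_option autoImplicit false
set_option linter.unusedSectionVars false

namespace Pool.Agent.W_MP_9da05b_an

open Set Filter Topology MeasureTheory

noncomputable section

variable {T : ℝ} [hT : Fact (0 < T)] {n m : ℕ}

lemma limsup_eq_of_sub_tendsto {l : Filter ℝ} [l.NeBot] {a c : ℝ → ℝ}
    (h : Tendsto (fun t => a t - c t) l (𝓝 0)) :
    limsup (fun t => ((a t : ℝ) : EReal)) l = limsup (fun t => ((c t : ℝ) : EReal)) l := by
  have aux : ∀ a c : ℝ → ℝ, Tendsto (fun t => a t - c t) l (𝓝 0) →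
      limsup (fun t => ((a t : ℝ) : EReal)) l ≤ limsup (fun t => ((c t : ℝ) : EReal)) l := by
    intro a c h
    have h0 : Tendsto (fun t => ((a t - c t : ℝ) : EReal)) l (𝓝 ((0 : ℝ) : EReal)) :=
      (continuous_coe_real_ereal.tendsto _).comp h
    have h1 : limsup (fun t => ((a t - c t : ℝ) : EReal)) l = 0 := by
      rw [h0.limsup_eq]; rfl
    have h2 : (fun t => ((a t : ℝ) : EReal))
        = (fun t => ((c t : ℝ) : EReal)) + (fun t => ((a t - c t : ℝ) : EReal)) := by
      ext t
      simp only [Pi.add_apply]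
      rw [← EReal.coe_add]
      congr 1
      ring
    rw [h2]
    refine (EReal.limsup_add_le ?_ ?_).trans ?_
    · right; rw [h1]; exact EReal.zero_ne_top
    · right; rw [h1]; exact EReal.zero_ne_bot
    · rw [h1, add_zero]
  apply le_antisymm (aux a c h)
  apply aux c a
  have := h.neg
  simpa using this

section Sol

variable {f : St T n → Eu m → Eu n} {x : St T n} {u : ℝ → Eu m} {b : ℝ}
  {y : ℝ → Eu n} {φ : ℝ → St T n}

lemma shift_close (h : IsSol f x u b y φ) {t r : ℝ} (ht : t ∈ Ico 0 b) (hr0 : 0 ≤ r)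
    (hrb : t + r < b) :
    ‖φ (t + r) - driverShift f (φ t) (u t) r‖
      ≤ ∫ q in t..(t + r), ‖f (φ q) (u q) - f (φ t) (u t)‖ := by
  have hint_nonneg : 0 ≤ ∫ q in t..(t + r), ‖f (φ q) (u q) - f (φ t) (u t)‖ :=
    intervalIntegral.integral_nonneg (by linarith) (fun _ _ => norm_nonneg _)
  have htr : t + r ∈ Ico 0 b := ⟨by linarith [ht.1], hrb⟩
  rw [ContinuousMap.norm_le _ hint_nonneg]
  intro s
  rw [ContinuousMap.sub_apply, h.seg (t + r) htr s]
  rcases le_or_gt ((s : ℝ) + r) 0 with hs | hs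
  · have h1 : -T ≤ (s : ℝ) + r := by linarith [s.2.1]
    rw [driverShift_of_le f (φ t) (u t) s hs h1, h.seg t ht ⟨(s : ℝ) + r, h1, hs⟩]
    have : t + r + (s : ℝ) = t + ((s : ℝ) + r) := by ring
    simp only [this, sub_self, norm_zero]
    exact hint_nonneg
  · rw [driverShift_of_ge f (φ t) (u t) s hs.le, h.zero_eval ht]
    have hq : t + ((s : ℝ) + r) ∈ Ico 0 b := ⟨by linarith [ht.1], by linarith [s.2.2]⟩
    have h1 : t + r + (s : ℝ) = t + ((s : ℝ) + r) := by ring
    rw [h1, h.sub_eq ht hq]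
    have hI := h.int_sub ht hq
    have h2 : ((s : ℝ) + r) • f (φ t) (u t)
        = ∫ q in t..(t + ((s : ℝ) + r)), f (φ t) (u t) := by
      rw [intervalIntegral.integral_const]
      congr 1
      ring
    rw [h2, add_sub_add_left_eq_sub, ← intervalIntegral.integral_sub hI
      (intervalIntegrable_const)]
    refine (intervalIntegral.norm_integral_le_integral_norm (by linarith)).trans ?_
    apply intervalIntegral.integral_mono_interval le_rfl (by linarith) (by linarith [s.2.2])
    · exact Eventually.of_forall (fun q => norm_nonneg _)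
    · exact ((h.int_sub ht htr).sub intervalIntegrable_const).norm

lemma norm_driverShift_le (f : St T n → Eu m → Eu n) (z : St T n) (v : Eu m) {r : ℝ}
    (hr0 : 0 ≤ r) : ‖driverShift f z v r‖ ≤ ‖z‖ + r * ‖f z v‖ := by
  rw [ContinuousMap.norm_le _ (by positivity)]
  intro s
  unfold driverShift
  simp only [ContinuousMap.coe_mk]
  refine (norm_add_le _ _).trans ?_
  rw [norm_smul, Real.norm_eq_abs, abs_of_nonneg (le_max_right _ _)]
  have h1 : max ((s : ℝ) + r) 0 ≤ r := max_le (by linarith [s.2.2]) hr0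
  have h2 := mul_le_mul_of_nonneg_right h1 (norm_nonneg (f z v))
  have h3 := z.norm_coe_le_norm (projIcc (-T) 0 (neg_neg_of_pos hT.out).le ((s : ℝ) + r))
  linarith

/-- the Dini derivative is the Driver derivative at right Lebesgue points -/
lemma dini_eq {e : Eu n} (he : ‖e‖ = 1) (h : IsSol f x u b y φ) {t : ℝ} (ht : t ∈ Ico 0 b)
    (hleb : Tendsto (fun r => (∫ q in t..(t + r), ‖f (φ q) (u q) - f (φ t) (u t)‖) / r)
      (𝓝[>] 0) (𝓝 0)) :
    upperRightDini (fun t => VV e (φ t)) t = driverDeriv f (VV e) (φ t) (u t) := by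
  unfold upperRightDini driverDeriv
  apply limsup_eq_of_sub_tendsto
  set M : ℝ := ‖φ t‖ + 1 * ‖f (φ t) (u t)‖ with hM
  have h1 : Tendsto (fun r => (3/2 + 1/2 * M) *
      ((∫ q in t..(t + r), ‖f (φ q) (u q) - f (φ t) (u t)‖) / r)) (𝓝[>] 0) (𝓝 0) := by
    simpa using hleb.const_mul (3/2 + 1/2 * M)
  apply squeeze_zero_norm' _ h1
  have hb' : 0 < b - t := by linarith [ht.2]
  filter_upwards [self_mem_nhdsWithin, Ioo_mem_nhdsGT hb', Ioo_mem_nhdsGT one_pos] with r hr0 hrb hr1
  have hr0' : (0:ℝ) < r := hr0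
  rw [← sub_div, sub_sub_sub_cancel_right, Real.norm_eq_abs, abs_div, abs_of_pos hr0', ← mul_div_assoc]
  apply div_le_div_of_nonneg_right _ hr0'.le
  have h2 := VV_lip e he (φ (t + r)) (driverShift f (φ t) (u t) r)
  have h3 := norm_driverShift_le f (φ t) (u t) hr0'.le
  have h4 := shift_close h ht hr0'.le (by linarith [hrb.2] : t + r < b)
  have h5 : ‖driverShift f (φ t) (u t) r‖ ≤ M := by
    rw [hM]
    have := mul_le_mul_of_nonneg_right hr1.2.le (norm_nonneg (f (φ t) (u t)))
    linarith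
  have h6 := norm_nonneg (φ (t + r) - driverShift f (φ t) (u t) r)
  refine h2.trans ?_
  have h7 : 0 ≤ 3/2 + 1/2 * ‖driverShift f (φ t) (u t) r‖ := by positivity
  exact mul_le_mul (by linarith) h4 h6 (by linarith)

/-- a.e. point is a right Lebesgue point -/
lemma ae_lebesgue (h : IsSol f x u b y φ) :
    ∀ᵐ t ∂(volume.restrict (Ico 0 b)),
      Tendsto (fun r => (∫ q in t..(t + r), ‖f (φ q) (u q) - f (φ t) (u t)‖) / r)
      (𝓝[>] 0) (𝓝 0) := by
  rw [ae_restrict_iff' measurableSet_Ico]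
  set F : ℝ → Eu n := fun r => f (φ r) (u r) with hF
  have hk : ∀ k : ℕ, ∀ᵐ t : ℝ, b - 1 / (k + 1 : ℝ) ∈ Ico 0 b →
      Tendsto (fun r => ⨍ q in Metric.closedBall (t + r/2) (r/2),
        ‖(Icc 0 (b - 1 / (k + 1 : ℝ))).indicator F q
          - (Icc 0 (b - 1 / (k + 1 : ℝ))).indicator F t‖) (𝓝[>] 0) (𝓝 0) := by
    intro k
    by_cases hc : b - 1 / (k + 1 : ℝ) ∈ Ico 0 b
    · have hint : Integrable ((Icc 0 (b - 1 / (k + 1 : ℝ))).indicator F) := by
        rw [integrable_indicator_iff measurableSet_Icc]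
        have := h.int _ hc
        rwa [intervalIntegrable_iff_integrableOn_Icc_of_le hc.1] at this
      have := IsUnifLocDoublingMeasure.ae_tendsto_average_norm_sub (μ := (volume : Measure ℝ))
        hint.locallyIntegrable 1
      filter_upwards [this] with t ht _
      apply ht (l := 𝓝[>] (0:ℝ)) (fun r => t + r/2) (fun r => r/2)
      · have hc : Continuous fun r : ℝ => r / 2 := by fun_prop
        have h0 : Tendsto (fun r : ℝ => r / 2) (𝓝[>] 0) (𝓝 0) := by
          have := (hc.tendsto 0)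
          rw [zero_div] at this
          exact this.mono_left nhdsWithin_le_nhds
        apply tendsto_nhdsWithin_of_tendsto_nhds_of_eventually_within _ h0
        filter_upwards [self_mem_nhdsWithin] with r hr
        exact half_pos (show (0:ℝ) < r from hr)
      · filter_upwards [self_mem_nhdsWithin] with r hr
        have hr' : (0:ℝ) < r := hr
        rw [Metric.mem_closedBall, Real.dist_eq, sub_add_cancel_left, abs_neg, abs_of_pos (by linarith)]
        linarith
    · exact Eventually.of_forall (fun t hcc => absurd hcc hc)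
  rw [← ae_all_iff] at hk
  filter_upwards [hk] with t ht htb
  -- choose k
  obtain ⟨k, hk⟩ := exists_nat_one_div_lt (sub_pos.2 htb.2)
  have hck : t < b - 1 / (k + 1 : ℝ) := by linarith
  set c := b - 1 / (k + 1 : ℝ) with hc
  have hcb : c ∈ Ico 0 b := ⟨htb.1.trans hck.le, by
    have : (0:ℝ) < 1 / (k + 1 : ℝ) := by positivity
    linarith⟩
  have h1 := ht k hcb
  refine h1.congr' ?_
  filter_upwards [self_mem_nhdsWithin, Ioo_mem_nhdsGT (sub_pos.2 hck)] with r hr0 hr
  have hr0' : (0:ℝ) < r := hr0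
  have hball : Metric.closedBall (t + r/2) (r/2) = Icc t (t + r) := by
    rw [Real.closedBall_eq_Icc]
    congr 1 <;> ring
  rw [hball, setAverage_eq, Real.volume_real_Icc_of_le (by linarith), add_sub_cancel_left,
    smul_eq_mul, integral_Icc_eq_integral_Ioc, ← intervalIntegral.integral_of_le (by linarith)]
  have hdiv : ∀ A : ℝ, A / r = r⁻¹ * A := fun A => div_eq_inv_mul A r
  rw [hdiv]
  congr 1
  apply intervalIntegral.integral_congr
  intro q hq
  rw [uIcc_of_le (by linarith)] at hq
  simp only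
  rw [indicator_of_mem (show q ∈ Icc 0 c from ⟨by linarith [hq.1, htb.1], by linarith [hq.2, hr.2]⟩),
    indicator_of_mem (show t ∈ Icc 0 c from ⟨htb.1, hck.le⟩)]

/-- points of right continuity of the input are right Lebesgue points -/
lemma rightcont_lebesgue (hf : Continuous (fun p : St T n × Eu m => f p.1 p.2))
    (h : IsSol f x u b y φ) {t : ℝ} (ht : t ∈ Ico 0 b) (hu : ContinuousWithinAt u (Ioi t) t) :
    Tendsto (fun r => (∫ q in t..(t + r), ‖f (φ q) (u q) - f (φ t) (u t)‖) / r)
      (𝓝[>] 0) (𝓝 0) := by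
  have hT0 := hT.out
  have hb : 0 < b := ht.1.trans_lt ht.2
  -- choose c with t < c < b
  obtain ⟨c, htc, hcb⟩ := exists_between ht.2
  have hc : c ∈ Ico 0 b := ⟨ht.1.trans htc.le, hcb⟩
  have hyc := h.continuousOn hb hc
  have huc := isCompact_Icc.uniformContinuousOn_of_continuous hyc
  -- right continuity of φ at t
  have hφ : Tendsto φ (𝓝[>] t) (𝓝 (φ t)) := by
    rw [Metric.tendsto_nhds]
    intro ε hε
    rw [Metric.uniformContinuousOn_iff] at huc
    obtain ⟨δ, hδ, hδ2⟩ := huc (ε/2) (by linarith)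
    have h1 : min (t + δ) c ∈ Ioi t := lt_min (by linarith) htc
    filter_upwards [Ioo_mem_nhdsGT h1] with r hr
    have hr1 : r < t + δ := hr.2.trans_le (min_le_left _ _)
    have hr2 : r < c := hr.2.trans_le (min_le_right _ _)
    have hrb : r ∈ Ico 0 b := ⟨ht.1.trans hr.1.le, hr2.trans hcb⟩
    rw [dist_eq_norm]
    have : ‖φ r - φ t‖ ≤ ε/2 := by
      rw [ContinuousMap.norm_le _ (by linarith)]
      intro s
      rw [ContinuousMap.sub_apply, h.seg r hrb s, h.seg t ht s, ← dist_eq_norm]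
      have h3 := s.2.1
      have h4 := s.2.2
      have := hδ2 (r + (s : ℝ)) ⟨by linarith [hrb.1], by linarith⟩ (t + (s : ℝ))
        ⟨by linarith [ht.1], by linarith⟩ (by
          rw [Real.dist_eq, add_sub_add_right_eq_sub, abs_of_pos (by linarith [hr.1])]
          linarith)
      exact this.le
    linarith
  have hF : Tendsto (fun q => f (φ q) (u q)) (𝓝[>] t) (𝓝 (f (φ t) (u t))) := by
    have h1 : Tendsto (fun q => (φ q, u q)) (𝓝[>] t) (𝓝 (φ t, u t)) := hφ.prodMk_nhds hu
    exact (hf.tendsto (φ t, u t)).comp h1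
  rw [Metric.tendsto_nhds]
  intro ε hε
  rw [Metric.tendsto_nhds] at hF
  have hF2 := hF (ε/2) (by linarith)
  rw [eventually_nhdsWithin_iff] at hF2
  rw [Metric.eventually_nhds_iff] at hF2
  obtain ⟨δ, hδ, hδ2⟩ := hF2
  filter_upwards [self_mem_nhdsWithin, Ioo_mem_nhdsGT hδ] with r hr0 hr
  have hr0' : (0:ℝ) < r := hr0
  have hnn : 0 ≤ ∫ q in t..(t + r), ‖f (φ q) (u q) - f (φ t) (u t)‖ :=
    intervalIntegral.integral_nonneg (by linarith) (fun _ _ => norm_nonneg _)
  rw [Real.dist_eq, sub_zero, abs_of_nonneg (div_nonneg hnn hr0'.le), div_lt_iff₀ hr0']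
  have h1 : ‖∫ q in t..(t + r), ‖f (φ q) (u q) - f (φ t) (u t)‖‖ ≤ (ε/2) * |t + r - t| := by
    apply intervalIntegral.norm_integral_le_of_norm_le_const
    intro q hq
    rw [uIoc_of_le (by linarith)] at hq
    rw [norm_norm, ← dist_eq_norm]
    have := hδ2 (y := q) (by
      rw [Real.dist_eq, abs_of_pos (by linarith [hq.1])]
      linarith [hq.2, hr.2]) hq.1
    exact this.le
  rw [Real.norm_eq_abs, abs_of_nonneg hnn, add_sub_cancel_left, abs_of_pos hr0'] at h1
  nlinarith

end Sol

/-- The regularity condition for the functional. -/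
theorem regularity_VV (e : Eu n) (he : ‖e‖ = 1) (e' : Eu m) (he' : ‖e'‖ = 1) :
    Regularity (ff e e' : St T n → Eu m → Eu n) (VV e) := by
  intro x u hu b y φ hb h
  refine ⟨fun c hc => w_ac he he' hu hb h hc, ?_, ?_⟩
  · have h1 := ae_lebesgue h
    rw [ae_restrict_iff' measurableSet_Ico] at h1 ⊢
    filter_upwards [h1] with t ht htb
    exact dini_eq he h htb (ht htb)
  · intro t ht hut
    exact dini_eq he h ht (rightcont_lebesgue (continuous_ff e he e') h ht hut)

end

end Pool.Agent.W_MP_9da05b_an
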